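import Mathlib

/-!
Blueprint for MP_2d204e_co (maximum Laplacian energy of graphs with `m` edges): definitions and
independent small statements.  Paper proof in short:
upper bound: Brouwer's inequality (proved in the starting library) and
`tr (Q L) ≥ tr Q - 1` (graphs with a dominating vertex) resp. `tr (Q L) ≥ n - 1 - 2 tr (1 - Q)`
(connected graphs; via a spanning tree given by a parent function);
lower bound: explicit threshold graphs and the projection `P = pOne + pTwo`.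
-/

set_option autoImplicit false

open Finset Matrix

namespace Pool.Agent.Q260.TE

/-- Laplacian energy -/
noncomputable def lapEnergy {n : ℕ} (G : SimpleGraph (Fin n)) [DecidableRel G.Adj] : ℝ :=
  ((G.lapMatrix ℝ).charpoly.roots.map
    (fun x => |x - 2 * (G.edgeFinset.card : ℝ) / (n : ℝ)|)).sum

/-- the induced subgraph on `S` arises from a single vertex by repeatedly adding an isolated or a
dominating vertex -/
inductive Thr {n : ℕ} (G : SimpleGraph (Fin n)) : Finset (Fin n) → Prop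
  | single (v : Fin n) : Thr G {v}
  | isolated (S : Finset (Fin n)) (v : Fin n) : Thr G S → v ∉ S → (∀ u ∈ S, ¬ G.Adj v u) →
      Thr G (insert v S)
  | dominating (S : Finset (Fin n)) (v : Fin n) : Thr G S → v ∉ S → (∀ u ∈ S, G.Adj v u) →
      Thr G (insert v S)

/-- threshold graphs -/
def IsThreshold {n : ℕ} (G : SimpleGraph (Fin n)) : Prop := Thr G univ

/-- `2 m + 1 + k - n - 2 m k / n` -/
noncomputable def f (m n k : ℕ) : ℝ := 2 * m + 1 + k - n - 2 * m * k / n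

/-- the admissible pairs -/
def Adm (m n k : ℕ) : Prop := 1 ≤ k ∧ k + 1 ≤ n ∧ n ≤ m + 1 ∧ m + 1 ≤ n + k.choose 2

/-- the graph in which `i ≠ j` are adjacent iff `max i j ∈ D` -/
def gD (n : ℕ) (D : Finset ℕ) : SimpleGraph (Fin n) where
  Adj i j := i ≠ j ∧ max i.1 j.1 ∈ D
  symm := ⟨fun i j h => ⟨h.1.symm, by rw [max_comm]; exact h.2⟩⟩
  loopless := ⟨fun _ h => h.1 rfl⟩

instance (n : ℕ) (D : Finset ℕ) : DecidableRel (gD n D).Adj :=
  fun i j => inferInstanceAs (Decidable (i ≠ j ∧ max i.1 j.1 ∈ D))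

/-- projection on the vectors supported on `W` with sum zero -/
noncomputable def pOne {n : ℕ} (W : Finset (Fin n)) : Matrix (Fin n) (Fin n) ℝ :=
  fun i j => (if i = j ∧ i ∈ W then 1 else 0) - (if i ∈ W ∧ j ∈ W then (1 : ℝ) / W.card else 0)

/-- the vector `n e_u - 1` -/
def zv {n : ℕ} (u : Fin n) (i : Fin n) : ℝ := if i = u then (n : ℝ) - 1 else -1

/-- projection on the line of `zv u` -/
noncomputable def pTwo {n : ℕ} (u : Fin n) : Matrix (Fin n) (Fin n) ℝ :=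
  fun i j => zv u i * zv u j / (n * (n - 1))

/-! ### trees -/

/-- T1. A connected graph has a spanning tree given by a parent function. Hint: `r` any vertex,
`p v` = a neighbour of `v` with `G.dist r (p v) + 1 = G.dist r v` (last step of a shortest walk). -/
def TaskParent : Prop := ∀ (n : ℕ) (G : SimpleGraph (Fin n)), G.Connected →
  ∃ (r : Fin n) (p : Fin n → Fin n), (∀ v, v ≠ r → G.Adj v (p v)) ∧
    ∀ v w, v ≠ r → w ≠ r → p v = w → p w ≠ v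

/-- T2. Hint: `tr (Q L) = (1/2) ∑_{i,j adjacent} (Q i i + Q j j - 2 Q i j)` and
`Q i i + Q j j - 2 Q i j = ∑ k (Q k i - Q k j)² ≥ 0`; the ordered pairs `(v, p v)`, `(p v, v)` are
`2 (n-1)` different adjacent pairs. -/
def TaskTree : Prop := ∀ (n : ℕ) (G : SimpleGraph (Fin n)) [DecidableRel G.Adj]
  (Q : Matrix (Fin n) (Fin n) ℝ), Qᵀ = Q → Q * Q = Q → ∀ (r : Fin n) (p : Fin n → Fin n),
    (∀ v, v ≠ r → G.Adj v (p v)) → (∀ v w, v ≠ r → w ≠ r → p v = w → p w ≠ v) →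
    ∑ v ∈ univ.erase r, (Q v v + Q (p v) (p v) - 2 * Q v (p v)) ≤ (Q * G.lapMatrix ℝ).trace

/-- T3. Hint: for each `q` with children `C = {v ≠ r | p v = q}`, with `a = P q q ∈ [0,1]` and
`∑_{c ∈ C} (P c q)² ≤ a - a²` (from `P q q = ∑ c (P c q)²`): `-2 P c q ≤ (1-a) + (P c q)²/(1-a)`, so
`∑_{c ∈ C} -2 P c q ≤ #C (1 - a) + a`; hence the terms of `q` sum to at most `#C + a + ∑_{c∈C} P c c`;
sum over `q`. -/
def TaskForest : Prop := ∀ (n : ℕ) (P : Matrix (Fin n) (Fin n) ℝ), Pᵀ = P → P * P = P →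
  ∀ (r : Fin n) (p : Fin n → Fin n), (∀ v, v ≠ r → p v ≠ v) →
    ∑ v ∈ univ.erase r, (P v v + P (p v) (p v) - 2 * P v (p v)) ≤ (n : ℝ) - 1 + 2 * P.trace

/-- T4. Dominating vertex. Hint: as in T2, `tr (Q L) ≥ ∑_{v ≠ u} (Q u u + Q v v - 2 Q u v)
= n Q u u + tr Q - 2 y`, `y = ∑ v, Q u v`, and `y² ≤ n ∑ v, (Q u v)² = n Q u u`. -/
def TaskDom : Prop := ∀ (n : ℕ) (G : SimpleGraph (Fin n)) [DecidableRel G.Adj] (u : Fin n)
  (Q : Matrix (Fin n) (Fin n) ℝ), Qᵀ = Q → Q * Q = Q → (∀ v, v ≠ u → G.Adj u v) →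
    Q.trace - 1 ≤ (Q * G.lapMatrix ℝ).trace

/-! ### spectra -/

/-- T5. The spectral projection of a set of eigenvectors. -/
def TaskSpec : Prop := ∀ (n : ℕ) (A : Matrix (Fin n) (Fin n) ℝ) (hA : A.IsHermitian)
  (t : Finset (Fin n)), ∃ P : Matrix (Fin n) (Fin n) ℝ, Pᵀ = P ∧ P * P = P ∧
    P.trace = (t.card : ℝ) ∧ (P * A).trace = ∑ i ∈ t, hA.eigenvalues i

/-- T6. `t` = the eigenvalues greater than the mean `2m/n`. Hint: `lapEnergy G = ∑ |λ_i - c|` by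
`hL.roots_charpoly_eq_eigenvalues` (see `Helper554/LE/Main.lean`: `lapEnergy_eq`, `trace_lap`,
`upper_gen` on main), `∑ λ_i = c n`. `t ≠ univ`: some eigenvalue is `≤ c` (their mean is `c`).
`t ≠ ∅`: otherwise all eigenvalues are `c`, but `0` is an eigenvalue (`L 1 = 0`) and `c > 0`. -/
def TaskTop : Prop := ∀ (n : ℕ) (G : SimpleGraph (Fin n)) [DecidableRel G.Adj]
  (hL : (G.lapMatrix ℝ).IsHermitian), 1 ≤ n → 0 < G.edgeFinset.card →
    ∃ t : Finset (Fin n), 1 ≤ t.card ∧ t.card + 1 ≤ n ∧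
      lapEnergy G = 2 * (∑ i ∈ t, hL.eigenvalues i
        - 2 * (G.edgeFinset.card : ℝ) / n * t.card)

/-! ### arithmetic for the upper bounds -/

/-- T7. Hint: if `m + 1 ≤ n + C(s,2)` take `(n, s)`; otherwise `n' = m + 1 - C(s,2) > n`, `k' = s`
(then `f m n' s = m + s(s+1)/2 - 2ms/n'`). -/
def TaskUpDom : Prop := ∀ (m n s : ℕ) (S : ℝ), 1 ≤ s → s + 1 ≤ n → n ≤ m + 1 →
  S ≤ m + (s : ℝ) * (s + 1) / 2 → S ≤ 2 * m - ((n : ℝ) - 1 - s) →
    ∃ n' k', Adm m n' k' ∧ S - 2 * m / n * s ≤ f m n' k'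

/-- T8. Hint: case `C(s,2) < m + 1 - n` as in T7. Otherwise let `k'` be the least `k ≥ 1` with
`m + 1 ≤ n + C(k,2)`; `k' ≤ s`, `(k'-2)² ≤ 2m`; the difference is at most
`2 (s - k') (1 - m/n) + k'`, and `1 - m/n ≤ 1/(m+1)`. -/
def TaskUpConn : Prop := ∀ (m n s : ℕ) (S : ℝ), 1 ≤ s → s + 1 ≤ n → n ≤ m + 1 →
  S ≤ m + (s : ℝ) * (s + 1) / 2 → S ≤ 2 * m - ((n : ℝ) - 1 - 2 * s) →
    ∃ n' k', Adm m n' k' ∧ S - 2 * m / n * s ≤ f m n' k' + √(2 * m) + 4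

/-- T9. For fixed `n` the least `k` is the best (`f` is affine in `k` with slope
`1 - 2m/n ≤ 0`, as `n ≤ m + 1 ≤ 2 m`). -/
def TaskMinK : Prop := ∀ m n k : ℕ, Adm m n k →
  ∃ k', Adm m n k' ∧ (k' = 1 ∨ n + (k' - 1).choose 2 ≤ m) ∧ f m n k ≤ f m n k'

/-- T10. Hint: `q = (2m)^{1/4}`. If `k ≤ q² - 2q` (and `q ≥ 2`) then `n ≥ m + 1 - k²/2 ≥
1 + 2q³ - 2q²` and `f ≤ q⁴ + 1 + k - n`. Otherwise `n + q⁴ k / n ≥ 2 q² √k` gives
`f ≤ q⁴ + 1 + s² - 2 q² s`, `s = √k`, which is decreasing for `s ≤ q²`, and `q - 2 ≤ s ≤ q²`. -/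
def TaskAsymUp : Prop := ∀ (m n k : ℕ) (q : ℝ), 0 ≤ q → q ^ 4 = 2 * m → Adm m n k →
  f m n k ≤ q ^ 4 - 2 * q ^ 3 + 5 * q ^ 2 + 5

/-- T11. Hint: `k = ⌈q²⌉ + 1`, `n = ⌈q³⌉`. -/
def TaskAsymLow : Prop := ∀ (m : ℕ) (q : ℝ), 2 ≤ q → q ^ 4 = 2 * m →
  ∃ n k, Adm m n k ∧ q ^ 4 - 2 * q ^ 3 ≤ f m n k

/-! ### the projection for the lower bound -/

/-- T12. -/
def TaskPOne : Prop := ∀ (n : ℕ) (W : Finset (Fin n)), W.Nonempty →
  (pOne W)ᵀ = pOne W ∧ pOne W * pOne W = pOne W ∧ (pOne W).trace = (W.card : ℝ) - 1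

/-- T13. (`∑ i, (zv u i)² = n (n - 1)`) -/
def TaskPTwo : Prop := ∀ (n : ℕ) (u : Fin n), 2 ≤ n →
  (pTwo u)ᵀ = pTwo u ∧ pTwo u * pTwo u = pTwo u ∧ (pTwo u).trace = 1

/-- T14. (`zv u` is constant on `W`) -/
def TaskPMul : Prop := ∀ (n : ℕ) (u : Fin n) (W : Finset (Fin n)), W.Nonempty → u ∉ W →
  pOne W * pTwo u = 0 ∧ pTwo u * pOne W = 0

/-- T15. `tr (pOne W * L) = ∑_{W} deg - (1/k) 1_W L 1_W`, and `1_W L 1_W` = number of edges
leaving `W` = `k` (only the edges to `u`). -/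
def TaskLapOne : Prop := ∀ (n : ℕ) (G : SimpleGraph (Fin n)) [DecidableRel G.Adj] (u : Fin n)
  (W : Finset (Fin n)), W.Nonempty → u ∉ W → (∀ v, v ≠ u → G.Adj u v) →
    (∀ v w, G.Adj v w → v ≠ u → w ≠ u → v ∈ W ∧ w ∈ W) →
    (pOne W * G.lapMatrix ℝ).trace = ∑ v ∈ W, (G.degree v : ℝ) - 1

/-- T16. `zv u` is an eigenvector of `L` for the eigenvalue `n`. -/
def TaskLapTwo : Prop := ∀ (n : ℕ) (G : SimpleGraph (Fin n)) [DecidableRel G.Adj] (u : Fin n),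
  2 ≤ n → (∀ v, v ≠ u → G.Adj u v) → (pTwo u * G.lapMatrix ℝ).trace = n

/-- T17. Hint: sum of the degrees; `u` has degree `n - 1`, the vertices outside `W ∪ {u}` have
degree 1. -/
def TaskDeg : Prop := ∀ (n : ℕ) (G : SimpleGraph (Fin n)) [DecidableRel G.Adj] (u : Fin n)
  (W : Finset (Fin n)), u ∉ W → (∀ v, v ≠ u → G.Adj u v) →
    (∀ v w, G.Adj v w → v ≠ u → w ≠ u → v ∈ W ∧ w ∈ W) →
    ∑ v ∈ W, (G.degree v : ℝ) =
      2 * (G.edgeFinset.card : ℝ) - ((n : ℝ) - 1) - ((n : ℝ) - 1 - W.card)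

/-! ### graphs -/

/-- T18. All numbers up to `0 + 1 + ⋯ + (k-1)` are sums of different numbers `< k` (induction). -/
def TaskSubset : Prop := ∀ k c : ℕ, c ≤ k.choose 2 → ∃ D : Finset ℕ, D ⊆ range k ∧ ∑ j ∈ D, j = c

/-- T19. Hint: count the edges by their larger end `j ∈ D`: there are `j` of them. -/
def TaskEdges : Prop := ∀ (n : ℕ) (D : Finset ℕ), D ⊆ range n →
  (gD n D).edgeFinset.card = ∑ j ∈ D, j

/-- T20. Hint: `Thr (gD n D) {i | i < j + 1}` by induction on `j < n`. -/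
def TaskThr : Prop := ∀ (n : ℕ) (D : Finset ℕ), 1 ≤ n → IsThreshold (gD n D)

/-- T21. Hint: the last step of `Thr G univ`. -/
def TaskThrDom : Prop := ∀ (n : ℕ) (G : SimpleGraph (Fin n)), G.Connected → IsThreshold G →
  ∃ u : Fin n, ∀ v, v ≠ u → G.Adj u v

/-- T22. The energies of the connected graphs with `m` edges form a finite set (`n ≤ m + 1` by
`SimpleGraph.Connected.card_vert_le_card_edgeSet_add_one`; finitely many graphs on `Fin n`). -/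
def TaskFinite : Prop := ∀ m : ℕ,
  {e : ℝ | ∃ (n : ℕ) (G : SimpleGraph (Fin n)) (_ : DecidableRel G.Adj),
    G.Connected ∧ G.edgeFinset.card = m ∧ lapEnergy G = e}.Finite

end Pool.Agent.Q260.TE
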