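import Mathlib
import Pool.Agent.Q260.TE.Stmts
open Finset
namespace Pool.Agent.Q260.TE.Fin0
theorem inst_irrel {n : ℕ} (G : SimpleGraph (Fin n)) (i1 i2 : DecidableRel G.Adj) :
    @lapEnergy n G i1 = @lapEnergy n G i2 := by
  have h : i1 = i2 := Subsingleton.elim _ _
  rw [h]

theorem finiteEnergies : Pool.Agent.Q260.TE.TaskFinite := by
  classical
  intro m
  have h : {e : ℝ | ∃ (n : ℕ) (G : SimpleGraph (Fin n)) (_ : DecidableRel G.Adj),
    G.Connected ∧ G.edgeFinset.card = m ∧ lapEnergy G = e} ⊆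
    ⋃ n ∈ Set.Iic (m + 1), Set.range fun G : SimpleGraph (Fin n) => lapEnergy G := by
    rintro e ⟨n, G, inst, hc, hE, rfl⟩
    have hn : n ≤ m + 1 := by
      have h := hc.card_vert_le_card_edgeSet_add_one
      rw [Nat.card_eq_fintype_card, Fintype.card_fin, Nat.card_eq_fintype_card,
        ← SimpleGraph.edgeFinset_card, hE] at h
      exact h
    simp only [Set.mem_iUnion, Set.mem_range, Set.mem_Iic]
    refine ⟨n, hn, G, ?_⟩
    exact inst_irrel G _ _
  exact (Set.Finite.biUnion (Set.finite_Iic _) fun n _ => Set.finite_range _).subset h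
end Pool.Agent.Q260.TE.Fin0
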