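import Mathlib
import Pool.Agent.Q260.TE.Stmts
import Pool.Agent.Helper554.LE.Main
import Pool.Agent.Helper244.Br.Final

set_option autoImplicit false

open Finset Matrix

namespace Pool.Agent.Q260.TE

theorem lapEnergy_eq' {n : ℕ} (G : SimpleGraph (Fin n)) [DecidableRel G.Adj]
    (hL : (G.lapMatrix ℝ).IsHermitian) :
    lapEnergy G = ∑ i, |hL.eigenvalues i - 2 * (G.edgeFinset.card : ℝ) / (n : ℝ)| :=
  Pool.Agent.Helper554.LE.lapEnergy_eq G hL

/-- Brouwer's inequality -/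
theorem brouwer_t {n : ℕ} (G : SimpleGraph (Fin n)) [DecidableRel G.Adj]
    (hL : (G.lapMatrix ℝ).IsHermitian) (t : Finset (Fin n)) :
    ∑ i ∈ t, hL.eigenvalues i ≤ (G.edgeFinset.card : ℝ) + (t.card : ℝ) * (t.card + 1) / 2 := by
  classical
  have hsub : t.val.map hL.eigenvalues ≤ (G.lapMatrix ℝ).charpoly.roots := by
    rw [hL.roots_charpoly_eq_eigenvalues]
    have : t.val.map hL.eigenvalues ≤ (Finset.univ : Finset (Fin n)).val.map hL.eigenvalues :=
      Multiset.map_le_map (Finset.val_le_iff.mpr (Finset.subset_univ t))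
    simpa [Function.comp_def] using this
  have h := Pool.Br.brouwer_multiset G _ hsub
  have h1 : (t.val.map hL.eigenvalues).sum = ∑ i ∈ t, hL.eigenvalues i := rfl
  have h2 : (t.val.map hL.eigenvalues).card = t.card := by simp
  rw [h1, h2] at h
  have h3 : ((Nat.choose (t.card + 1) 2 : ℕ) : ℝ) = t.card * (t.card + 1) / 2 := by
    rw [Nat.cast_choose_two]
    push_cast
    ring
  rw [h3] at h
  exact h

/-- complement projection -/
theorem compl_proj {n : ℕ} {A P : Matrix (Fin n) (Fin n) ℝ} (h1 : Pᵀ = P) (h2 : P * P = P) :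
    (1 - P)ᵀ = 1 - P ∧ (1 - P) * (1 - P) = 1 - P ∧ (1 - P).trace = (n : ℝ) - P.trace ∧
      ((1 - P) * A).trace = A.trace - (P * A).trace := by
  refine ⟨?_, ?_, ?_, ?_⟩
  · rw [Matrix.transpose_sub, h1, Matrix.transpose_one]
  · rw [Matrix.sub_mul, Matrix.mul_sub, Matrix.mul_sub, h2]; simp
  · rw [Matrix.trace_sub, Matrix.trace_one, Fintype.card_fin]
  · rw [Matrix.sub_mul, Matrix.one_mul, Matrix.trace_sub]

theorem card_le {n : ℕ} (G : SimpleGraph (Fin n)) [DecidableRel G.Adj] (hc : G.Connected) :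
    n ≤ G.edgeFinset.card + 1 := by
  have h := hc.card_vert_le_card_edgeSet_add_one
  rw [Nat.card_eq_fintype_card, Fintype.card_fin, Nat.card_eq_fintype_card] at h
  rw [SimpleGraph.edgeFinset_card]
  exact h

/-- upper bound, dominating vertex -/
theorem upper_dom (hSpec : TaskSpec) (hTop : TaskTop) (hDom : TaskDom) (hUp : TaskUpDom)
    {n m : ℕ} (hm : 1 ≤ m) (G : SimpleGraph (Fin n)) [DecidableRel G.Adj] (hc : G.Connected)
    (hE : G.edgeFinset.card = m) (u : Fin n) (hu : ∀ v, v ≠ u → G.Adj u v) :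
    ∃ n' k', Adm m n' k' ∧ lapEnergy G ≤ 2 * f m n' k' := by
  have hL : (G.lapMatrix ℝ).IsHermitian := G.isHermitian_lapMatrix (R := ℝ)
  have hn : 1 ≤ n := by have := u.2; omega
  obtain ⟨t, ht1, ht2, hte⟩ := hTop n G hL hn (by omega)
  obtain ⟨P, hP1, hP2, hP3, hP4⟩ := hSpec n (G.lapMatrix ℝ) hL t
  obtain ⟨hQ1, hQ2, hQ3, hQ4⟩ := compl_proj (A := G.lapMatrix ℝ) hP1 hP2
  have h := hDom n G u (1 - P) hQ1 hQ2 hu
  rw [hQ3, hQ4, hP3, hP4, Pool.Agent.Helper554.LE.trace_lap, hE] at h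
  have hb := brouwer_t G hL t
  rw [hE] at hb hte
  have hcard := card_le G hc
  rw [hE] at hcard
  obtain ⟨n', k', hA, hle⟩ := hUp m n t.card (∑ i ∈ t, hL.eigenvalues i) ht1 ht2 hcard hb
    (by linarith)
  refine ⟨n', k', hA, ?_⟩
  rw [hte]
  linarith

/-- upper bound, connected graphs -/
theorem upper_conn (hPar : TaskParent) (hTree : TaskTree) (hFor : TaskForest)
    (hSpec : TaskSpec) (hTop : TaskTop) (hUp : TaskUpConn)
    {n m : ℕ} (hm : 1 ≤ m) (G : SimpleGraph (Fin n)) [DecidableRel G.Adj] (hc : G.Connected)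
    (hE : G.edgeFinset.card = m) :
    ∃ n' k', Adm m n' k' ∧ lapEnergy G ≤ 2 * f m n' k' + 2 * √(2 * m) + 8 := by
  have hL : (G.lapMatrix ℝ).IsHermitian := G.isHermitian_lapMatrix (R := ℝ)
  obtain ⟨r, p, hp1, hp2⟩ := hPar n G hc
  have hn : 1 ≤ n := by have := r.2; omega
  obtain ⟨t, ht1, ht2, hte⟩ := hTop n G hL hn (by omega)
  obtain ⟨P, hP1, hP2, hP3, hP4⟩ := hSpec n (G.lapMatrix ℝ) hL t
  obtain ⟨hQ1, hQ2, hQ3, hQ4⟩ := compl_proj (A := G.lapMatrix ℝ) hP1 hP2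
  have h := hTree n G (1 - P) hQ1 hQ2 r p hp1 hp2
  have hf := hFor n P hP1 hP2 r p (fun v hv => (hp1 v hv).ne')
  have hs : ∑ v ∈ univ.erase r, ((1 - P) v v + (1 - P) (p v) (p v) - 2 * (1 - P) v (p v)) =
      2 * ((n : ℝ) - 1) - ∑ v ∈ univ.erase r, (P v v + P (p v) (p v) - 2 * P v (p v)) := by
    have h1 : ∀ v ∈ univ.erase r, ((1 - P) v v + (1 - P) (p v) (p v) - 2 * (1 - P) v (p v)) =
        2 - (P v v + P (p v) (p v) - 2 * P v (p v)) := by
      intro v hv
      have hv' : v ≠ r := (Finset.mem_erase.1 hv).1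
      have hne : v ≠ p v := (hp1 v hv').ne
      simp only [Matrix.sub_apply, Matrix.one_apply_eq, Matrix.one_apply_ne hne]
      ring
    rw [Finset.sum_congr rfl h1, Finset.sum_sub_distrib]
    congr 1
    rw [Finset.sum_const, Finset.card_erase_of_mem (Finset.mem_univ r), Finset.card_univ,
      Fintype.card_fin, nsmul_eq_mul, Nat.cast_sub hn]
    push_cast
    ring
  rw [hs, hQ4, hP4, Pool.Agent.Helper554.LE.trace_lap, hE] at h
  rw [hP3] at hf
  have hb := brouwer_t G hL t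
  rw [hE] at hb hte
  have hcard := card_le G hc
  rw [hE] at hcard
  obtain ⟨n', k', hA, hle⟩ := hUp m n t.card (∑ i ∈ t, hL.eigenvalues i) ht1 ht2 hcard hb
    (by linarith)
  refine ⟨n', k', hA, ?_⟩
  rw [hte]
  linarith

/-- lower bound -/
theorem lower (hP1 : TaskPOne) (hP2 : TaskPTwo) (hPM : TaskPMul) (hL1 : TaskLapOne)
    (hL2 : TaskLapTwo) (hDeg : TaskDeg) (hSub : TaskSubset) (hEd : TaskEdges) (hThr : TaskThr)
    {m n k : ℕ} (hA : Adm m n k) :
    ∃ (G : SimpleGraph (Fin n)) (_ : DecidableRel G.Adj), G.Connected ∧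
      G.edgeFinset.card = m ∧ IsThreshold G ∧ (∃ u : Fin n, ∀ v, v ≠ u → G.Adj u v) ∧
      2 * f m n k ≤ lapEnergy G := by
  classical
  obtain ⟨hk, hkn, hnm, hch⟩ := hA
  obtain ⟨D, hD, hDs⟩ := hSub k (m + 1 - n) (by omega)
  have hnD : n - 1 ∉ D := fun h => by have := Finset.mem_range.1 (hD h); omega
  set D' : Finset ℕ := insert (n - 1) D with hD'
  have hD'n : D' ⊆ range n := by
    intro j hj
    rcases Finset.mem_insert.1 hj with h | h
    · rw [h]; exact Finset.mem_range.2 (by omega)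
    · have := Finset.mem_range.1 (hD h); exact Finset.mem_range.2 (by omega)
  have hcard : (gD n D').edgeFinset.card = m := by
    rw [hEd n D' hD'n, hD', Finset.sum_insert hnD, hDs]; omega
  set u : Fin n := ⟨n - 1, by omega⟩ with hu
  have hdom : ∀ v, v ≠ u → (gD n D').Adj u v := by
    intro v hv
    refine ⟨hv.symm, ?_⟩
    have h1 : v.1 ≤ n - 1 := by have := v.2; omega
    rw [hu]
    simp only [max_eq_left h1]
    exact Finset.mem_insert_self _ _
  set W : Finset (Fin n) := univ.filter fun i => i.1 < k with hW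
  have huW : u ∉ W := by
    rw [hW, Finset.mem_filter]
    rintro ⟨-, h⟩
    rw [hu] at h
    simp only at h
    omega
  have hWc : W.card = k := by
    have h1 : W = (univ : Finset (Fin k)).map (Fin.castLEEmb (by omega : k ≤ n)) := by
      ext i
      simp only [hW, Finset.mem_filter, Finset.mem_univ, true_and, Finset.mem_map]
      constructor
      · intro h; exact ⟨⟨i.1, h⟩, rfl⟩
      · rintro ⟨j, rfl⟩; exact j.2
    rw [h1, Finset.card_map, Finset.card_univ, Fintype.card_fin]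
  have hWne : W.Nonempty := Finset.card_pos.1 (by omega)
  have hpend : ∀ v w, (gD n D').Adj v w → v ≠ u → w ≠ u → v ∈ W ∧ w ∈ W := by
    rintro v w ⟨hne, hmax⟩ hv hw
    have hv1 : v.1 ≠ n - 1 := fun h => hv (Fin.ext h)
    have hw1 : w.1 ≠ n - 1 := fun h => hw (Fin.ext h)
    rcases Finset.mem_insert.1 hmax with h | h
    · rcases max_choice v.1 w.1 with h' | h' <;> omega
    · have h2 := Finset.mem_range.1 (hD h)
      have h3 := le_max_left v.1 w.1
      have h4 := le_max_right v.1 w.1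
      simp only [hW, Finset.mem_filter, Finset.mem_univ, true_and]
      omega
  have hconn : (gD n D').Connected := by
    haveI : Nonempty (Fin n) := ⟨u⟩
    refine SimpleGraph.Connected.mk ?_
    have key : ∀ v, (gD n D').Reachable u v := by
      intro v
      by_cases h : v = u
      · rw [h]
      · exact (hdom v h).reachable
    intro a b
    exact (key a).symm.trans (key b)
  refine ⟨gD n D', inferInstance, hconn, hcard, hThr n D' (by omega), ⟨u, hdom⟩, ?_⟩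
  have hL : ((gD n D').lapMatrix ℝ).IsHermitian := (gD n D').isHermitian_lapMatrix (R := ℝ)
  have hn2 : 2 ≤ n := by omega
  obtain ⟨a1, a2, a3⟩ := hP1 n W hWne
  obtain ⟨b1, b2, b3⟩ := hP2 n u hn2
  obtain ⟨c1, c2⟩ := hPM n u W hWne huW
  have e1 := hL1 n (gD n D') u W hWne huW hdom hpend
  have e2 := hL2 n (gD n D') u hn2 hdom
  have e3 := hDeg n (gD n D') u W huW hdom hpend
  have hlow := Pool.Agent.Helper554.LE.energy_lower (P := pOne W + pTwo u) hL
    (by rw [Matrix.transpose_add, a1, b1])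
    (by rw [Matrix.add_mul, Matrix.mul_add, Matrix.mul_add, a2, b2, c1, c2]; simp)
    (2 * ((gD n D').edgeFinset.card : ℝ) / n)
  rw [Matrix.add_mul, Matrix.trace_add, Matrix.trace_add, a3, b3, e1, e2, e3,
    Pool.Agent.Helper554.LE.trace_lap, ← lapEnergy_eq', hcard, hWc] at hlow
  have hnR : (n : ℝ) ≠ 0 := by positivity
  refine le_trans (le_of_eq ?_) hlow
  unfold f
  field_simp
  ring

/-- Laplacian energies of the connected graphs with `m` edges -/
def Conn (m : ℕ) : Set ℝ := {e : ℝ | ∃ (n : ℕ) (G : SimpleGraph (Fin n)) (_ : DecidableRel G.Adj),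
  G.Connected ∧ G.edgeFinset.card = m ∧ lapEnergy G = e}

/-- Laplacian energies of the connected threshold graphs with `m` edges -/
def ConnThr (m : ℕ) : Set ℝ := {e : ℝ | ∃ (n : ℕ) (G : SimpleGraph (Fin n))
  (_ : DecidableRel G.Adj), G.Connected ∧ IsThreshold G ∧ G.edgeFinset.card = m ∧ lapEnergy G = e}

/-- Laplacian energies of the graphs with `m` edges and a vertex adjacent to all others -/
def ConnDom (m : ℕ) : Set ℝ := {e : ℝ | ∃ (n : ℕ) (G : SimpleGraph (Fin n))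
  (_ : DecidableRel G.Adj), (∃ u : Fin n, ∀ v, v ≠ u → G.Adj u v) ∧ G.edgeFinset.card = m ∧
    lapEnergy G = e}

/-- The numbers `2 (2m + 1 + k - n - 2mk/n)`, `k` the least positive integer with
`C(k,2) ≥ m + 1 - n`, for the `n ≤ m + 1` with `k ≤ n - 1`. -/
def Values (m : ℕ) : Set ℝ := {y : ℝ | ∃ n k : ℕ, 1 ≤ k ∧ k + 1 ≤ n ∧ n ≤ m + 1 ∧
  m + 1 ≤ n + k.choose 2 ∧ (k = 1 ∨ n + (k - 1).choose 2 ≤ m) ∧
  y = 2 * (2 * m + 1 + k - n - 2 * m * k / n)}

theorem conn_of_dom {n : ℕ} {G : SimpleGraph (Fin n)} {u : Fin n}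
    (hdom : ∀ v, v ≠ u → G.Adj u v) : G.Connected := by
  haveI : Nonempty (Fin n) := ⟨u⟩
  refine SimpleGraph.Connected.mk ?_
  have key : ∀ v, G.Reachable u v := by
    intro v
    by_cases h : v = u
    · rw [h]
    · exact (hdom v h).reachable
  intro a b
  exact (key a).symm.trans (key b)

theorem final (hPar : TaskParent) (hTree : TaskTree) (hFor : TaskForest)
    (hSpec : TaskSpec) (hTop : TaskTop) (hUpC : TaskUpConn) (hDom : TaskDom) (hUp : TaskUpDom)
    (hP1 : TaskPOne) (hP2 : TaskPTwo) (hPM : TaskPMul) (hL1 : TaskLapOne)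
    (hL2 : TaskLapTwo) (hDeg : TaskDeg) (hSub : TaskSubset) (hEd : TaskEdges) (hThr : TaskThr)
    (hTD : TaskThrDom) (hFin : TaskFinite) (hMin : TaskMinK) (hAU : TaskAsymUp)
    (hAL : TaskAsymLow) (m : ℕ) (hm : 1 ≤ m) :
    ∃ x y : ℝ, IsGreatest (Values m) x ∧ IsGreatest (ConnThr m) x ∧ IsGreatest (ConnDom m) x ∧
      IsGreatest (Conn m) y ∧ x ≤ y ∧ y ≤ x + 2 * √(2 * m) + 8 ∧
      (8 ≤ m → 4 * m - 4 * (2 * m : ℝ) ^ (3 / 4 : ℝ) ≤ x) ∧
      x ≤ 4 * m - 4 * (2 * m : ℝ) ^ (3 / 4 : ℝ) + 10 * √(2 * m) + 10 := by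
  classical
  have hlow : ∀ n k, Adm m n k → ∃ e ∈ ConnThr m, 2 * f m n k ≤ e := by
    intro n k hA
    obtain ⟨G, inst, h1, h2, h3, -, h5⟩ := lower hP1 hP2 hPM hL1 hL2 hDeg hSub hEd hThr hA
    exact ⟨_, ⟨n, G, inst, h1, h3, h2, rfl⟩, h5⟩
  have hup : ∀ e ∈ ConnDom m, ∃ n k, Adm m n k ∧ e ≤ 2 * f m n k := by
    rintro e ⟨n, G, inst, ⟨u, hu⟩, hE, rfl⟩
    exact upper_dom hSpec hTop hDom hUp hm G (conn_of_dom hu) hE u hu
  have hTsub : ConnThr m ⊆ ConnDom m := by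
    rintro e ⟨n, G, inst, h1, h2, h3, h4⟩
    exact ⟨n, G, inst, hTD n G h1 h2, h3, h4⟩
  have hDsub : ConnDom m ⊆ Conn m := by
    rintro e ⟨n, G, inst, ⟨u, hu⟩, h3, h4⟩
    exact ⟨n, G, inst, conn_of_dom hu, h3, h4⟩
  have hfin : (Conn m).Finite := hFin m
  have hA0 : Adm m (m + 1) 1 := ⟨le_rfl, by omega, le_rfl, by omega⟩
  have hne : (ConnThr m).Nonempty := by
    obtain ⟨e, he, -⟩ := hlow _ _ hA0
    exact ⟨e, he⟩
  obtain ⟨x, hx, hxmax⟩ := Set.exists_max_image (ConnThr m) id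
    (hfin.subset (hTsub.trans hDsub)) hne
  obtain ⟨y, hy, hymax⟩ := Set.exists_max_image (Conn m) id hfin
    (hne.mono (hTsub.trans hDsub))
  simp only [id] at hxmax hymax
  -- x is the largest value
  have hfle : ∀ n k, Adm m n k → 2 * f m n k ≤ x := by
    intro n k hA
    obtain ⟨e, he, hle⟩ := hlow n k hA
    exact hle.trans (hxmax e he)
  obtain ⟨n1, k1, hA1, hle1⟩ := hup x (hTsub hx)
  obtain ⟨k2, hA2, hk2, hle2⟩ := hMin m n1 k1 hA1
  have hxe : x = 2 * f m n1 k2 := le_antisymm (by linarith) (hfle n1 k2 hA2)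
  have hcast : ∀ n k : ℕ, 2 * f m n k = 2 * (2 * (m : ℝ) + 1 + k - n - 2 * m * k / n) :=
    fun n k => rfl
  -- the real numbers
  have hm0 : (0 : ℝ) ≤ 2 * m := by positivity
  set q : ℝ := (2 * m : ℝ) ^ (1 / 4 : ℝ) with hq
  have hq0 : 0 ≤ q := Real.rpow_nonneg hm0 _
  have hq4 : q ^ 4 = 2 * m := by
    rw [hq, ← Real.rpow_natCast, ← Real.rpow_mul hm0]; norm_num
  have hq3 : (2 * m : ℝ) ^ (3 / 4 : ℝ) = q ^ 3 := by
    rw [hq, ← Real.rpow_natCast, ← Real.rpow_mul hm0]; norm_num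
  have hq2 : √(2 * m) = q ^ 2 := by
    rw [Real.sqrt_eq_rpow, hq, ← Real.rpow_natCast, ← Real.rpow_mul hm0]; norm_num
  refine ⟨x, y, ⟨⟨n1, k2, hA2.1, hA2.2.1, hA2.2.2.1, hA2.2.2.2, hk2, ?_⟩, ?_⟩,
    ⟨hx, fun e he => hxmax e he⟩, ⟨hTsub hx, ?_⟩, ⟨hy, fun e he => hymax e he⟩,
    hymax x (hDsub (hTsub hx)), ?_, ?_, ?_⟩
  · rw [hxe, hcast]
  · rintro z ⟨n, k, h1, h2, h3, h4, -, rfl⟩
    rw [← hcast]
    exact hfle n k ⟨h1, h2, h3, h4⟩
  · intro e he
    obtain ⟨n, k, hA, hle⟩ := hup e he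
    exact hle.trans (hfle n k hA)
  · obtain ⟨n, G, inst, hc, hE, rfl⟩ := hy
    obtain ⟨n', k', hA, hle⟩ := upper_conn hPar hTree hFor hSpec hTop hUpC hm G hc hE
    have := hfle n' k' hA
    linarith
  · intro h8
    have hq2' : 2 ≤ q := by
      have h16 : (16 : ℝ) ≤ 2 * m := by
        have : (8 : ℝ) ≤ m := by exact_mod_cast h8
        linarith
      by_contra hcon
      push Not at hcon
      have : q ^ 4 < 2 ^ 4 := pow_lt_pow_left₀ hcon hq0 (by norm_num)
      rw [hq4] at this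
      linarith
    obtain ⟨n, k, hA, hle⟩ := hAL m q hq2' hq4
    have := hfle n k hA
    rw [hq3]
    linarith
  · have := hAU m n1 k2 q hq0 hq4 hA2
    rw [hq3, hq2, hxe]
    linarith

end Pool.Agent.Q260.TE
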