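import Mathlib
import Pool.Agent.Q260.TE.Stmts

set_option autoImplicit false

namespace Pool.Agent.Q260.TE.Pine

/-- `2m - (n - 1 - k) - 2mk/n` for the pineapple, `m = n - 1 + C(k,2)` -/
noncomputable def g (n k : ℕ) : ℝ :=
  2 * ((n : ℝ) - 1 + k * (k - 1) / 2) + 1 + k - n - 2 * ((n : ℝ) - 1 + k * (k - 1) / 2) * k / n

/-- at most half of the eigenvalues -/
theorem arith1 {n s : ℕ} {m S : ℝ} (hs : 1 ≤ s) (hsn : s + 1 ≤ n) (h2 : 2 * s ≤ n)
    (h3 : S ≤ s * n) (h4 : S ≤ m + (s : ℝ) * (s + 1) / 2) :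
    S - 2 * m / n * s ≤ g n (n - s) := by
  have hn : (0 : ℝ) < n := by
    have : 0 < n := by omega
    exact_mod_cast this
  have h2' : (2 : ℝ) * s ≤ n := by exact_mod_cast h2
  have hs' : (1 : ℝ) ≤ s := by exact_mod_cast hs
  have hcast : ((n - s : ℕ) : ℝ) = (n : ℝ) - s := by rw [Nat.cast_sub (by omega)]
  unfold g
  rw [hcast]
  have e1 : S - 2 * m / n * s = (S * n - 2 * m * s) / n := by field_simp
  rw [e1, div_le_iff₀ hn]
  have e2 : (2 * ((n : ℝ) - 1 + (n - s) * (n - s - 1) / 2) + 1 + (n - s) - n -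
      2 * ((n : ℝ) - 1 + (n - s) * (n - s - 1) / 2) * (n - s) / n) * n =
      s * ((n - s) ^ 2 + s) + (n - 2 * s) := by field_simp; ring
  rw [e2]
  have key : S * n - 2 * m * s ≤ s * ((n - s) ^ 2 + s) := by
    rcases le_total ((s : ℝ) * n - s * (s + 1) / 2) m with h | h
    · nlinarith
    · nlinarith
  linarith

/-- many edges -/
theorem arith2 {n s : ℕ} {m S : ℝ} (hs : 1 ≤ s) (hsn : s + 1 ≤ n) (h2 : n ≤ 2 * s)
    (h4 : S ≤ m + (s : ℝ) * (s + 1) / 2) (h5 : (n : ℝ) - 1 + s * (s - 1) / 2 ≤ m) :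
    S - 2 * m / n * s ≤ g n s := by
  have hn : (0 : ℝ) < n := by
    have : 0 < n := by omega
    exact_mod_cast this
  have h2' : (n : ℝ) ≤ 2 * s := by exact_mod_cast h2
  unfold g
  have e1 : S - 2 * m / n * s = (S * n - 2 * m * s) / n := by field_simp
  rw [e1, div_le_iff₀ hn]
  have e2 : (2 * ((n : ℝ) - 1 + s * (s - 1) / 2) + 1 + s - n -
      2 * ((n : ℝ) - 1 + s * (s - 1) / 2) * s / n) * n =
      (2 * ((n : ℝ) - 1 + s * (s - 1) / 2) + 1 + s - n) * n -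
      2 * ((n : ℝ) - 1 + s * (s - 1) / 2) * s := by field_simp
  rw [e2]
  nlinarith

/-- few edges -/
theorem arith3 {n s : ℕ} {m S d : ℝ} (hs : 1 ≤ s) (hsn : s + 1 ≤ n)
    (h4 : S ≤ 2 * m - ((n : ℝ) - 1 - s) + d) (h5 : m ≤ (n : ℝ) - 1 + s * (s - 1) / 2) :
    S - 2 * m / n * s ≤ g n s + d -
      2 * ((n : ℝ) - 1 + s * (s - 1) / 2 - m) * (1 - s / n) := by
  have hn : (0 : ℝ) < n := by
    have : 0 < n := by omega
    exact_mod_cast this
  unfold g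
  have e1 : 2 * ((n : ℝ) - 1 + s * (s - 1) / 2) + 1 + s - n -
      2 * ((n : ℝ) - 1 + s * (s - 1) / 2) * s / n + d -
      2 * ((n : ℝ) - 1 + s * (s - 1) / 2 - m) * (1 - s / n) =
      2 * m + 1 + s - n + d - 2 * m / n * s := by field_simp; ring
  rw [e1]
  linarith

end Pool.Agent.Q260.TE.Pine
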