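import Mathlib
import Pool.Agent.Q260.TE.Main
import Pool.Agent.Q260.TE.PineArith

set_option autoImplicit false

open Finset Matrix

namespace Pool.Agent.Q260.TE.Pine

open Pool.Agent.Q260.TE

/-- The pineapple `PA(n, p)`: a complete graph on the vertices `0, …, p - 1`; all the other
vertices are joined to the vertex `0` only. -/
def PA (n p : ℕ) : SimpleGraph (Fin n) where
  Adj i j := i ≠ j ∧ (i.1 = 0 ∨ j.1 = 0 ∨ (i.1 < p ∧ j.1 < p))
  symm := ⟨fun i j h => ⟨h.1.symm, by tauto⟩⟩
  loopless := ⟨fun _ h => h.1 rfl⟩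

instance (n p : ℕ) : DecidableRel (PA n p).Adj :=
  fun i j => inferInstanceAs (Decidable (i ≠ j ∧ (i.1 = 0 ∨ j.1 = 0 ∨ (i.1 < p ∧ j.1 < p))))

/-- the number of the Laplacian eigenvalues greater than the average degree -/
noncomputable def above {n : ℕ} (G : SimpleGraph (Fin n)) [DecidableRel G.Adj] : ℕ := by
  classical
  exact ((G.lapMatrix ℝ).charpoly.roots.filter
    (fun x => 2 * (G.edgeFinset.card : ℝ) / (n : ℝ) < x)).card

theorem card_lt {n k : ℕ} (h : k ≤ n) : (univ.filter fun i : Fin n => i.1 < k).card = k := by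
  have h1 : (univ.filter fun i : Fin n => i.1 < k) =
      (univ : Finset (Fin k)).map (Fin.castLEEmb h) := by
    ext i
    simp only [Finset.mem_filter, Finset.mem_univ, true_and, Finset.mem_map]
    constructor
    · intro h; exact ⟨⟨i.1, h⟩, rfl⟩
    · rintro ⟨j, rfl⟩; exact j.2
  rw [h1, Finset.card_map, Finset.card_univ, Fintype.card_fin]

theorem pa_lower (hP1 : TaskPOne) (hP2 : TaskPTwo) (hPM : TaskPMul) (hL1 : TaskLapOne)
    (hL2 : TaskLapTwo) (hDeg : TaskDeg) {n k : ℕ} (hk : 1 ≤ k) (hkn : k + 1 ≤ n) :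
    2 * g n k ≤ lapEnergy (PA n (k + 1)) := by
  classical
  set G := PA n (k + 1) with hG
  set u : Fin n := ⟨0, by omega⟩ with hu
  set W : Finset (Fin n) := (univ.filter fun i : Fin n => i.1 < k + 1).erase u with hW
  have huW : u ∉ W := Finset.notMem_erase _ _
  have hWc : W.card = k := by
    rw [hW, Finset.card_erase_of_mem (by simp [hu]), card_lt hkn]; rfl
  have hWne : W.Nonempty := Finset.card_pos.1 (by omega)
  have hdom : ∀ v, v ≠ u → G.Adj u v := fun v hv => ⟨hv.symm, Or.inl rfl⟩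
  have hne0 : ∀ v : Fin n, v ≠ u → v.1 ≠ 0 := fun v hv h => hv (Fin.ext h)
  have hpend : ∀ v w, G.Adj v w → v ≠ u → w ≠ u → v ∈ W ∧ w ∈ W := by
    rintro v w ⟨-, h⟩ hv hw
    have h1 := hne0 v hv
    have h2 := hne0 w hw
    rcases h with h | h | ⟨h3, h4⟩
    · exact absurd h h1
    · exact absurd h h2
    · simp only [hW, Finset.mem_erase, Finset.mem_filter, Finset.mem_univ, true_and]
      exact ⟨⟨hv, h3⟩, hw, h4⟩
  have hdeg : ∀ v ∈ W, (G.degree v : ℝ) = k := by
    intro v hv
    have hv' := hv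
    simp only [hW, Finset.mem_erase, Finset.mem_filter, Finset.mem_univ, true_and] at hv
    have h1 : G.neighborFinset v = (univ.filter fun i : Fin n => i.1 < k + 1).erase v := by
      ext w
      rw [SimpleGraph.mem_neighborFinset]
      simp only [Finset.mem_erase, Finset.mem_filter, Finset.mem_univ, true_and]
      constructor
      · rintro ⟨h2, h3⟩
        refine ⟨h2.symm, ?_⟩
        rcases h3 with h | h | h
        · exact absurd h (hne0 v hv.1)
        · omega
        · exact h.2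
      · rintro ⟨h2, h3⟩
        exact ⟨h2.symm, Or.inr (Or.inr ⟨hv.2, h3⟩)⟩
    have hmem : v ∈ (univ.filter fun i : Fin n => i.1 < k + 1) :=
      Finset.mem_filter.2 ⟨Finset.mem_univ _, hv.2⟩
    rw [← SimpleGraph.card_neighborFinset_eq_degree, h1,
      Finset.card_erase_of_mem hmem, card_lt hkn]
    simp
  have hL : (G.lapMatrix ℝ).IsHermitian := G.isHermitian_lapMatrix (R := ℝ)
  have hn2 : 2 ≤ n := by omega
  obtain ⟨a1, a2, a3⟩ := hP1 n W hWne
  obtain ⟨b1, b2, b3⟩ := hP2 n u hn2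
  obtain ⟨c1, c2⟩ := hPM n u W hWne huW
  have e1 := hL1 n G u W hWne huW hdom hpend
  have e2 := hL2 n G u hn2 hdom
  have e3 := hDeg n G u W huW hdom hpend
  rw [Finset.sum_congr rfl hdeg, Finset.sum_const, hWc, nsmul_eq_mul] at e3
  have hlow := Pool.Agent.Helper554.LE.energy_lower (P := pOne W + pTwo u) hL
    (by rw [Matrix.transpose_add, a1, b1])
    (by rw [Matrix.add_mul, Matrix.mul_add, Matrix.mul_add, a2, b2, c1, c2]; simp)
    (2 * (G.edgeFinset.card : ℝ) / n)
  rw [Matrix.add_mul, Matrix.trace_add, Matrix.trace_add, a3, b3, e1, e2,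
    Pool.Agent.Helper554.LE.trace_lap, ← lapEnergy_eq', Finset.sum_congr rfl hdeg,
    Finset.sum_const, hWc, nsmul_eq_mul] at hlow
  have hm : (G.edgeFinset.card : ℝ) = (n : ℝ) - 1 + k * (k - 1) / 2 := by linarith
  rw [hm] at hlow
  have hnR : (n : ℝ) ≠ 0 := by positivity
  refine le_trans (le_of_eq ?_) hlow
  unfold g
  field_simp
  ring

/-- the eigenvalues above the mean -/
theorem top {n : ℕ} (G : SimpleGraph (Fin n)) [DecidableRel G.Adj]
    (hL : (G.lapMatrix ℝ).IsHermitian) (hn : 1 ≤ n) (hm : 0 < G.edgeFinset.card) :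
    ∃ t : Finset (Fin n), t.card = above G ∧ 1 ≤ t.card ∧ t.card + 1 ≤ n ∧
      lapEnergy G = 2 * (∑ i ∈ t, hL.eigenvalues i
        - 2 * (G.edgeFinset.card : ℝ) / n * t.card) := by
  classical
  obtain ⟨c, hc⟩ : ∃ c : ℝ, c = 2 * (G.edgeFinset.card : ℝ) / n := ⟨_, rfl⟩
  have hnR : (n : ℝ) ≠ 0 := by
    have : n ≠ 0 := by omega
    exact_mod_cast this
  have hn0 : (0 : ℝ) < n := by
    have : 0 < n := by omega
    exact_mod_cast this
  have hmR : (0 : ℝ) < (G.edgeFinset.card : ℝ) := by exact_mod_cast hm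
  have hc0 : 0 < c := by
    rw [hc]
    positivity
  have h2 : ∑ i, hL.eigenvalues i = c * n := by
    have h3 : (G.lapMatrix ℝ).trace = ∑ i, hL.eigenvalues i := by
      have := hL.trace_eq_sum_eigenvalues
      simpa using this
    rw [← h3, Pool.Agent.Helper554.LE.trace_lap, hc]
    field_simp
  set t : Finset (Fin n) := Finset.univ.filter fun i => c < hL.eigenvalues i with ht
  refine ⟨t, ?_, ?_, ?_, ?_⟩
  · unfold above
    rw [hL.roots_charpoly_eq_eigenvalues, Multiset.filter_map, Multiset.card_map, ← hc, ht]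
    rfl
  · by_contra hcon
    have h0 : t = ∅ := Finset.card_eq_zero.1 (by omega)
    have hle : ∀ i, hL.eigenvalues i ≤ c := by
      intro i
      by_contra h
      have : i ∈ t := by
        rw [ht, Finset.mem_filter]
        exact ⟨Finset.mem_univ _, not_le.1 h⟩
      rw [h0] at this
      exact absurd this (Finset.notMem_empty _)
    have hsum : ∑ i, (c - hL.eigenvalues i) = 0 := by
      rw [Finset.sum_sub_distrib, h2, Finset.sum_const, Finset.card_univ, Fintype.card_fin,
        nsmul_eq_mul]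
      ring
    have heq : ∀ i, hL.eigenvalues i = c := by
      intro i
      have := (Finset.sum_eq_zero_iff_of_nonneg fun i _ => sub_nonneg.2 (hle i)).1 hsum i
        (Finset.mem_univ i)
      linarith
    have hdet : (G.lapMatrix ℝ).det = 0 := by
      have : Nonempty (Fin n) := ⟨⟨0, by omega⟩⟩
      exact SimpleGraph.det_lapMatrix_eq_zero G
    have hprod := hL.det_eq_prod_eigenvalues
    rw [hdet] at hprod
    have h5 : ∏ i : Fin n, ((hL.eigenvalues i : ℝ) : ℝ) ≠ 0 :=
      Finset.prod_ne_zero_iff.2 fun i _ => by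
        rw [heq]
        exact hc0.ne'
    exact h5 hprod.symm
  · by_contra hcon
    have h0 : t = Finset.univ := by
      refine Finset.eq_univ_of_card _ ?_
      have h3 := Finset.card_le_univ t
      rw [Fintype.card_fin] at h3 ⊢
      omega
    have hlt : ∀ i, c < hL.eigenvalues i := by
      intro i
      have : i ∈ t := by
        rw [h0]
        exact Finset.mem_univ _
      exact (Finset.mem_filter.1 this).2
    have hsum : ∑ i : Fin n, c < ∑ i, hL.eigenvalues i :=
      Finset.sum_lt_sum_of_nonempty ⟨⟨0, by omega⟩, Finset.mem_univ _⟩ fun i _ => hlt i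
    rw [h2, Finset.sum_const, Finset.card_univ, Fintype.card_fin, nsmul_eq_mul] at hsum
    linarith
  · rw [lapEnergy_eq' G hL, ← hc]
    have h4 : ∀ i, |hL.eigenvalues i - c| = 2 * (if i ∈ t then hL.eigenvalues i - c else 0)
        - (hL.eigenvalues i - c) := by
      intro i
      by_cases hi : c < hL.eigenvalues i
      · have : i ∈ t := by simp [ht, hi]
        rw [if_pos this, abs_of_nonneg (by linarith)]
        ring
      · have : i ∉ t := by simp [ht, hi]
        rw [if_neg this, abs_of_nonpos (by linarith [not_lt.mp hi])]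
        ring
    rw [Finset.sum_congr rfl fun i _ => h4 i, Finset.sum_sub_distrib, ← Finset.mul_sum,
      Finset.sum_ite_mem, Finset.univ_inter, Finset.sum_sub_distrib, Finset.sum_sub_distrib, h2]
    simp only [Finset.sum_const, Finset.card_univ, Fintype.card_fin, nsmul_eq_mul]
    ring

/-- **Theorem.** -/
theorem pine (hPar : TaskParent) (hTree : TaskTree) (hFor : TaskForest)
    (hSpec : TaskSpec) (hDom : TaskDom)
    (hP1 : TaskPOne) (hP2 : TaskPTwo) (hPM : TaskPMul) (hL1 : TaskLapOne)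
    (hL2 : TaskLapTwo) (hDeg : TaskDeg)
    {n : ℕ} (hn : 2 ≤ n) (G : SimpleGraph (Fin n)) [DecidableRel G.Adj] (hc : G.Connected) :
    1 ≤ above G ∧ above G + 1 ≤ n ∧
    (((∃ u : Fin n, ∀ v, v ≠ u → G.Adj u v) ∨ 2 * above G ≤ n ∨
        n - 1 + (above G).choose 2 ≤ G.edgeFinset.card ∨
        (above G : ℝ) * n ≤ 2 * ((n : ℝ) - 1 + ((above G).choose 2 : ℕ) - G.edgeFinset.card) *
          (n - above G)) →
      ∃ p, 2 ≤ p ∧ p ≤ n ∧ lapEnergy G ≤ lapEnergy (PA n p)) ∧
    ∃ p, 2 ≤ p ∧ p ≤ n ∧ lapEnergy G ≤ lapEnergy (PA n p) + 2 * above G := by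
  have hL : (G.lapMatrix ℝ).IsHermitian := G.isHermitian_lapMatrix (R := ℝ)
  have hm0 : 0 < G.edgeFinset.card := by
    have := card_le G hc
    omega
  obtain ⟨t, hta, ht1, ht2, hte⟩ := top G hL (by omega) hm0
  rw [← hta]
  obtain ⟨s, hs⟩ : ∃ s, s = t.card := ⟨_, rfl⟩
  rw [← hs] at ht1 ht2 hte ⊢
  obtain ⟨m, hm⟩ : ∃ m, m = G.edgeFinset.card := ⟨_, rfl⟩
  obtain ⟨S, hS⟩ : ∃ S : ℝ, S = ∑ i ∈ t, hL.eigenvalues i := ⟨_, rfl⟩
  have hb := brouwer_t G hL t
  rw [← hS, ← hs, ← hm] at hb
  rw [← hS, ← hm] at hte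
  have hSn : S ≤ s * n := by
    rw [hS]
    calc ∑ i ∈ t, hL.eigenvalues i ≤ ∑ i ∈ t, (n : ℝ) :=
          Finset.sum_le_sum fun i _ => Pool.Agent.Helper554.LE.eig_le G hL i
      _ = s * n := by rw [Finset.sum_const, nsmul_eq_mul, ← hs]
  obtain ⟨P, hP1', hP2', hP3, hP4⟩ := hSpec n (G.lapMatrix ℝ) hL t
  obtain ⟨hQ1, hQ2, hQ3, hQ4⟩ := compl_proj (A := G.lapMatrix ℝ) hP1' hP2'
  rw [← hm]
  have hchoose : ((s.choose 2 : ℕ) : ℝ) = s * (s - 1) / 2 := Nat.cast_choose_two ℝ s
  have hn0 : (0 : ℝ) < n := by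
    have : 0 < n := by omega
    exact_mod_cast this
  have hsn' : (s : ℝ) + 1 ≤ n := by exact_mod_cast ht2
  -- pineapples
  have hpa : ∀ k : ℕ, 1 ≤ k → k + 1 ≤ n → ∀ d : ℝ, S - 2 * m / n * s ≤ g n k + d →
      lapEnergy G ≤ lapEnergy (PA n (k + 1)) + 2 * d := by
    intro k hk hkn d h
    have := pa_lower hP1 hP2 hPM hL1 hL2 hDeg hk hkn
    rw [hte]
    linarith
  -- the general bound
  have hgen : S ≤ 2 * m - ((n : ℝ) - 1 - s) + s := by
    obtain ⟨r, p, hp1, hp2⟩ := hPar n G hc
    have h := hTree n G (1 - P) hQ1 hQ2 r p hp1 hp2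
    have hf := hFor n P hP1' hP2' r p (fun v hv => (hp1 v hv).ne')
    have hs' : ∑ v ∈ univ.erase r, ((1 - P) v v + (1 - P) (p v) (p v) - 2 * (1 - P) v (p v)) =
        2 * ((n : ℝ) - 1) - ∑ v ∈ univ.erase r, (P v v + P (p v) (p v) - 2 * P v (p v)) := by
      have h1 : ∀ v ∈ univ.erase r, ((1 - P) v v + (1 - P) (p v) (p v) - 2 * (1 - P) v (p v)) =
          2 - (P v v + P (p v) (p v) - 2 * P v (p v)) := by
        intro v hv
        have hv' : v ≠ r := (Finset.mem_erase.1 hv).1
        have hne : v ≠ p v := (hp1 v hv').ne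
        simp only [Matrix.sub_apply, Matrix.one_apply_eq, Matrix.one_apply_ne hne]
        ring
      rw [Finset.sum_congr rfl h1, Finset.sum_sub_distrib]
      congr 1
      rw [Finset.sum_const, Finset.card_erase_of_mem (Finset.mem_univ r), Finset.card_univ,
        Fintype.card_fin, nsmul_eq_mul, Nat.cast_sub (by omega)]
      push_cast
      ring
    rw [hs', hQ4, hP4, Pool.Agent.Helper554.LE.trace_lap, ← hS, ← hm] at h
    rw [hP3, ← hs] at hf
    linarith
  refine ⟨ht1, ht2, ?_, ?_⟩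
  · intro hcases
    have hmain : ∃ k : ℕ, 1 ≤ k ∧ k + 1 ≤ n ∧ S - 2 * m / n * s ≤ g n k + 0 := by
      by_cases h1 : 2 * s ≤ n
      · refine ⟨n - s, by omega, by omega, ?_⟩
        have := arith1 ht1 ht2 h1 hSn hb
        linarith
      · refine ⟨s, ht1, ht2, ?_⟩
        by_cases h2 : n - 1 + s.choose 2 ≤ m
        · have h2' : (n : ℝ) - 1 + s * (s - 1) / 2 ≤ m := by
            have h3 : (((n - 1 + s.choose 2 : ℕ)) : ℝ) ≤ m := by exact_mod_cast h2
            rw [Nat.cast_add, Nat.cast_sub (by omega), hchoose] at h3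
            push_cast at h3
            exact h3
          have := arith2 ht1 ht2 (by omega) hb h2'
          linarith
        · have h2' : (m : ℝ) ≤ (n : ℝ) - 1 + s * (s - 1) / 2 := by
            have h3 : (m : ℝ) ≤ ((n - 1 + s.choose 2 : ℕ) : ℝ) := by
              exact_mod_cast (not_le.1 h2).le
            rw [Nat.cast_add, Nat.cast_sub (by omega), hchoose] at h3
            push_cast at h3
            exact h3
          have hfac : (0 : ℝ) ≤ 1 - s / n := by
            rw [sub_nonneg, div_le_one hn0]; linarith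
          rcases hcases with ⟨u, hu⟩ | h | h | h
          · have h := hDom n G u (1 - P) hQ1 hQ2 hu
            rw [hQ3, hQ4, hP3, hP4, Pool.Agent.Helper554.LE.trace_lap, ← hs, ← hm, ← hS] at h
            have h3 := arith3 (d := 0) ht1 ht2 (S := S) (m := m) (by linarith) h2'
            have h4 : 0 ≤ 2 * ((n : ℝ) - 1 + s * (s - 1) / 2 - m) * (1 - s / n) :=
              mul_nonneg (by linarith) hfac
            linarith
          · exact absurd h h1
          · exact absurd h h2
          · have h3 := arith3 ht1 ht2 hgen h2'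
            have h4 : (s : ℝ) ≤ 2 * ((n : ℝ) - 1 + s * (s - 1) / 2 - m) * (1 - s / n) := by
              rw [hchoose] at h
              have e : 2 * ((n : ℝ) - 1 + s * (s - 1) / 2 - m) * (1 - s / n) =
                (2 * ((n : ℝ) - 1 + s * (s - 1) / 2 - m) * (n - s)) / n := by field_simp
              rw [e, le_div_iff₀ hn0]
              exact h
            linarith
    obtain ⟨k, hk1, hk2, hk3⟩ := hmain
    refine ⟨k + 1, by omega, hk2, ?_⟩
    have := hpa k hk1 hk2 0 hk3
    linarith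
  · by_cases h2 : (m : ℝ) ≤ (n : ℝ) - 1 + s * (s - 1) / 2
    · refine ⟨s + 1, by omega, ht2, ?_⟩
      have h3 := arith3 ht1 ht2 hgen h2
      have hfac : (0 : ℝ) ≤ 1 - s / n := by
        rw [sub_nonneg, div_le_one hn0]; linarith
      have h4 : 0 ≤ 2 * ((n : ℝ) - 1 + s * (s - 1) / 2 - m) * (1 - s / n) :=
        mul_nonneg (by linarith) hfac
      exact hpa s ht1 ht2 s (by linarith)
    · have hs0 : (0 : ℝ) ≤ s := Nat.cast_nonneg _
      by_cases h1 : 2 * s ≤ n
      · refine ⟨n - s + 1, by omega, by omega, ?_⟩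
        have := arith1 ht1 ht2 h1 hSn hb
        exact hpa (n - s) (by omega) (by omega) s (by linarith)
      · refine ⟨s + 1, by omega, ht2, ?_⟩
        have := arith2 ht1 ht2 (by omega) hb (not_le.1 h2).le
        exact hpa s ht1 ht2 s (by linarith)

end Pool.Agent.Q260.TE.Pine
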