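import Mathlib
import Pool.Agent.Q260.TE.Stmts

set_option autoImplicit false

namespace Pool.Agent.Q260.TE.Red

theorem red (m n k : ℕ) (h : Adm m n k) (hmin : k = 1 ∨ n + (k - 1).choose 2 ≤ m) :
    ∃ j : ℕ, 1 ≤ j ∧ (j + 1).choose 2 ≤ m ∧
      f m n k ≤ 2 * m + 1 + j - (m + 1 - (j.choose 2 : ℕ)) - 2 * m * j / (m + 1 - (j.choose 2 : ℕ)) := by
  obtain ⟨hk1, hkn, hnm, hch⟩ := h
  by_cases hk : k = 1
  · subst hk
    have hn : n = m + 1 := by
      have : (1 : ℕ).choose 2 = 0 := rfl
      omega
    refine ⟨1, le_rfl, by simp; omega, ?_⟩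
    subst hn
    unfold f
    simp
  · have hmin' : n + (k - 1).choose 2 ≤ m := by rcases hmin with h | h; exact absurd h hk; exact h
    obtain ⟨l, rfl⟩ : ∃ l, k = l + 1 := ⟨k - 1, by omega⟩
    simp only [Nat.add_sub_cancel] at hmin'
    have hl : 1 ≤ l := by omega
    have e1 : (l + 1).choose 2 = l.choose 2 + l := by
      rw [Nat.choose_succ_succ' l 1, Nat.choose_one_right]; ring
    have e2 : (l + 1 + 1).choose 2 = (l + 1).choose 2 + (l + 1) := by
      rw [Nat.choose_succ_succ' (l + 1) 1, Nat.choose_one_right]; ring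
    have c1 : ((l.choose 2 : ℕ) : ℝ) = l * (l - 1) / 2 := Nat.cast_choose_two ℝ l
    have hnR : (0 : ℝ) < n := by
      have : 0 < n := by omega
      exact_mod_cast this
    have hmR : (3 : ℝ) ≤ m := by
      have : 3 ≤ m := by omega
      exact_mod_cast this
    have hlR : (1 : ℝ) ≤ l := by exact_mod_cast hl
    have hkn' : (l : ℝ) + 2 ≤ n := by
      have : l + 2 ≤ n := by omega
      exact_mod_cast this
    have hnm' : (n : ℝ) ≤ m + 1 := by exact_mod_cast hnm
    have hmin'' : (n : ℝ) + l * (l - 1) / 2 ≤ m := by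
      rw [← c1]; exact_mod_cast hmin'
    have hch' : (m : ℝ) + 1 ≤ n + (l * (l - 1) / 2 + l) := by
      rw [← c1]; rw [e1] at hch; exact_mod_cast hch
    -- the real number `N`
    obtain ⟨N, hN⟩ : ∃ N : ℝ, N = m + 1 - (l * (l - 1) / 2 + l) := ⟨_, rfl⟩
    by_cases hA : 2 * m * ((l : ℝ) + 1) ≤ n * N
    · have hNk : (l : ℝ) + 1 < N := by
        by_contra hcon
        push Not at hcon
        have h1 : (n : ℝ) * N ≤ (m + 1) * (l + 1) := by
          rcases le_total 0 N with h0 | h0
          · exact mul_le_mul hnm' hcon h0 (by linarith)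
          · have : (n : ℝ) * N ≤ 0 := mul_nonpos_of_nonneg_of_nonpos hnR.le h0
            nlinarith
        nlinarith
      have hN0 : 0 < N := by linarith
      refine ⟨l + 1, by omega, ?_, ?_⟩
      · have h3 : ((l : ℝ) + 1) + (l * (l - 1) / 2 + l) < m + 1 := by rw [hN] at hNk; linarith
        rw [← c1] at h3
        have h4 : (l + 1) + (l.choose 2 + l) < m + 1 := by exact_mod_cast h3
        rw [e2, e1]; omega
      · rw [e1]
        push_cast
        rw [c1]
        have e3 : (m : ℝ) + 1 - (l * (l - 1) / 2 + l) = N := hN.symm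
        rw [e3]
        unfold f
        push_cast
        have hnN : N ≤ n := by linarith
        have key : N + 2 * m * (l + 1) / N ≤ n + 2 * m * (l + 1) / n := by
          have e4 : (n + 2 * m * ((l : ℝ) + 1) / n) - (N + 2 * m * (l + 1) / N) =
              (n - N) * (n * N - 2 * m * (l + 1)) / (n * N) := by field_simp; ring
          have : 0 ≤ (n - N) * (n * N - 2 * m * ((l : ℝ) + 1)) / (n * N) :=
            div_nonneg (mul_nonneg (by linarith) (by linarith)) (by positivity)
          linarith
        linarith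
    · push Not at hA
      refine ⟨l, hl, by rw [e1]; omega, ?_⟩
      rw [c1]
      obtain ⟨N', hN'⟩ : ∃ N' : ℝ, N' = m + 1 - l * (l - 1) / 2 := ⟨_, rfl⟩
      rw [← hN']
      have hNN : N' = N + l := by rw [hN', hN]; ring
      obtain ⟨d, hd⟩ : ∃ d : ℝ, d = N' - n := ⟨_, rfl⟩
      have hd1 : 1 ≤ d := by rw [hd, hN']; linarith
      have hd2 : d ≤ l := by rw [hd, hNN]; linarith
      have hN'0 : 0 < N' := by linarith
      have h5 : d * (n * N) ≤ d * (2 * m * (l + 1)) := mul_le_mul_of_nonneg_left hA.le (by linarith)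
      have h6 : N + l * (1 + d) ≤ 2 * m := by
        have : (l : ℝ) * (1 + d) ≤ l * (1 + l) := mul_le_mul_of_nonneg_left (by linarith) (by linarith)
        have h7 : N + l * (1 + l) ≤ 2 * m := by rw [hN]; nlinarith
        linarith
      have h8 : (n : ℝ) * (N + l * (1 + d)) ≤ n * (2 * m) := mul_le_mul_of_nonneg_left h6 hnR.le
      have key : (1 + d) * (n * N') ≤ 2 * m * (n + (l + 1) * d) := by
        rw [hNN]; nlinarith
      have key2 : 1 + d ≤ 2 * m * (n + (l + 1) * d) / (n * N') := by
        rw [le_div_iff₀ (by positivity)]; exact key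
      have e5 : 2 * m * ((l : ℝ) + 1) / n - 2 * m * l / N' =
          2 * m * (n + (l + 1) * d) / (n * N') := by
        have : N' = n + d := by rw [hd]; ring
        rw [this]
        have h9 : (n : ℝ) + d ≠ 0 := by positivity
        field_simp
        ring
      unfold f
      push_cast
      linarith

end Pool.Agent.Q260.TE.Red
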