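import Mathlib
import Pool.Agent.Q260.TE.Main
import Pool.Agent.Q260.TE.Red

set_option autoImplicit false

namespace Pool.Agent.Q260.TE.Red

/-- half of the energy of the pineapple with `m` edges and a clique of `j + 1` vertices -/
noncomputable def h (m j : ℕ) : ℝ :=
  m + ((j + 1).choose 2 : ℕ) - 2 * m * j / (m + 1 - (j.choose 2 : ℕ))

theorem choose_succ (j : ℕ) : (j + 1).choose 2 = j.choose 2 + j := by
  rw [Nat.choose_succ_succ' j 1, Nat.choose_one_right]; ring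

theorem h_eq (m j : ℕ) : 2 * m + 1 + j - (m + 1 - ((j.choose 2 : ℕ) : ℝ)) -
    2 * m * j / (m + 1 - ((j.choose 2 : ℕ) : ℝ)) = h m j := by
  unfold h
  rw [choose_succ]
  push_cast
  ring

theorem h_mem (m j : ℕ) (hj : 1 ≤ j) (hm : (j + 1).choose 2 ≤ m) : 2 * h m j ∈ Values m := by
  rw [choose_succ] at hm
  refine ⟨m + 1 - j.choose 2, j, hj, by omega, by omega, by omega, ?_, ?_⟩
  · by_cases h1 : j = 1
    · exact Or.inl h1
    · right
      obtain ⟨i, rfl⟩ : ∃ i, j = i + 1 := ⟨j - 1, by omega⟩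
      have := choose_succ i
      simp only [Nat.add_sub_cancel]
      omega
  · rw [← h_eq, Nat.cast_sub (by omega)]
    push_cast
    ring

theorem pine_greatest (m : ℕ) (x : ℝ) (hx : IsGreatest (Values m) x) :
    IsGreatest {y : ℝ | ∃ j : ℕ, 1 ≤ j ∧ (j + 1).choose 2 ≤ m ∧ y = 2 * h m j} x := by
  obtain ⟨⟨n, k, a1, a2, a3, a4, a5, a6⟩, hub⟩ := hx
  obtain ⟨j, hj1, hj2, hj3⟩ := red m n k ⟨a1, a2, a3, a4⟩ a5
  rw [h_eq] at hj3
  have h1 : 2 * h m j ≤ x := hub (h_mem m j hj1 hj2)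
  have h2 : x ≤ 2 * h m j := by
    rw [a6]
    have : f m n k = 2 * (m : ℝ) + 1 + k - n - 2 * m * k / n := rfl
    linarith
  refine ⟨⟨j, hj1, hj2, le_antisymm h2 h1⟩, ?_⟩
  rintro y ⟨i, hi1, hi2, rfl⟩
  exact hub (h_mem m i hi1 hi2)

/-- `D ≥ 0` iff `h (j - 1) ≤ h j` -/
def Inc (m j : ℕ) : Prop :=
  2 * ((j : ℝ) * (j - 1) - 1) * (m + 1 - (j.choose 2 : ℕ)) + (j * (j - 1)) ^ 2 - 2 * (j * (j - 1)) ≤
    (j - 2) * (m + 1 - (j.choose 2 : ℕ)) ^ 2

theorem inc_iff (m j : ℕ) (hj : 1 ≤ j) (hm : (j + 1 + 1).choose 2 ≤ m) :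
    Inc m (j + 1) ↔ h m j ≤ h m (j + 1) := by
  have e1 := choose_succ j
  have e2 := choose_succ (j + 1)
  have e3 : ((j.choose 2 : ℕ) : ℝ) = j * (j - 1) / 2 := Nat.cast_choose_two ℝ j
  have hjR : (1 : ℝ) ≤ j := by exact_mod_cast hj
  have hm' : (j : ℝ) * (j - 1) / 2 + j + (j + 1) ≤ m := by
    rw [← e3]
    have : j.choose 2 + j + (j + 1) ≤ m := by omega
    exact_mod_cast this
  unfold Inc h
  rw [e2, e1]
  push_cast
  rw [e3]
  obtain ⟨N, hN⟩ : ∃ N : ℝ, N = m + 1 - (j * (j - 1) / 2 + j) := ⟨_, rfl⟩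
  have hN0 : 0 < N := by rw [hN]; linarith
  have e4 : (m : ℝ) + 1 - j * (j - 1) / 2 = N + j := by rw [hN]; ring
  have hm2 : (m : ℝ) = N - 1 + (j * (j - 1) / 2 + j) := by rw [hN]; ring
  rw [← hN, e4]
  have hNj : 0 < N + j := by linarith
  have e5 : ((m : ℝ) + (j * (j - 1) / 2 + j + (j + 1)) - 2 * m * (j + 1) / N) -
      (m + (j * (j - 1) / 2 + j) - 2 * m * j / (N + j)) =
      ((j - 1) * N ^ 2 - (2 * ((j + 1) * j - 1) * N + ((j + 1) * j) ^ 2 - 2 * ((j + 1) * j))) /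
        (N * (N + j)) := by
    rw [hm2]
    field_simp
    ring
  constructor
  · intro hI
    have h1 : 0 ≤ ((j - 1) * N ^ 2 - (2 * (((j : ℝ) + 1) * j - 1) * N + ((j + 1) * j) ^ 2 -
        2 * ((j + 1) * j))) / (N * (N + j)) := by
      apply div_nonneg _ (by positivity)
      ring_nf at hI ⊢
      linarith
    rw [← e5] at h1
    linarith
  · intro hI
    have h1 : 0 ≤ ((j - 1) * N ^ 2 - (2 * (((j : ℝ) + 1) * j - 1) * N + ((j + 1) * j) ^ 2 -
        2 * ((j + 1) * j))) / (N * (N + j)) := by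
      rw [← e5]; linarith
    have h2 : 0 ≤ ((j - 1) * N ^ 2 - (2 * (((j : ℝ) + 1) * j - 1) * N + ((j + 1) * j) ^ 2 -
        2 * ((j + 1) * j))) := by
      by_contra hcon
      push Not at hcon
      have := div_neg_of_neg_of_pos hcon (by positivity : 0 < N * (N + j))
      linarith
    ring_nf at h2 ⊢
    linarith

/-- propagation -/
theorem prop (m j : ℕ) (hj : 3 ≤ j) (hm : (j + 1 + 1).choose 2 ≤ m) (hI : Inc m (j + 1)) :
    Inc m j := by
  by_contra hcon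
  have e1 := choose_succ j
  have e2 := choose_succ (j + 1)
  have e3 : ((j.choose 2 : ℕ) : ℝ) = j * (j - 1) / 2 := Nat.cast_choose_two ℝ j
  have hjR : (3 : ℝ) ≤ j := by exact_mod_cast hj
  have hm' : (j : ℝ) * (j - 1) / 2 + j + (j + 1) ≤ m := by
    rw [← e3]
    have : j.choose 2 + j + (j + 1) ≤ m := by omega
    exact_mod_cast this
  unfold Inc at hI hcon
  rw [e1] at hI
  push_cast at hI
  rw [e3] at hI hcon
  push Not at hcon
  obtain ⟨M, hM⟩ : ∃ M : ℝ, M = m + 1 - (j * (j - 1) / 2 + j) := ⟨_, rfl⟩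
  have e4 : (m : ℝ) + 1 - j * (j - 1) / 2 = M + j := by rw [hM]; ring
  rw [← hM] at hI
  rw [e4] at hcon
  have hM0 : 0 < M := by rw [hM]; linarith
  -- `M < 2 j²`
  have hM2 : M < 2 * (j : ℝ) ^ 2 := by
    by_contra h1
    push Not at h1
    rcases (by omega : j = 3 ∨ 4 ≤ j) with h3 | h4
    · subst h3
      norm_num at hcon h1
      nlinarith
    · have hj4 : (4 : ℝ) ≤ j := by exact_mod_cast h4
      have hN : 2 * (j : ℝ) ^ 2 ≤ M + j := by linarith
      have h5 : ((j : ℝ) - 2) * (M + j) ^ 2 ≥ (j - 2) * (2 * j ^ 2) * (M + j) := by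
        have : (M + j) ^ 2 ≥ 2 * (j : ℝ) ^ 2 * (M + j) := by nlinarith
        have h6 : (0 : ℝ) ≤ j - 2 := by linarith
        nlinarith [mul_le_mul_of_nonneg_left this h6]
      have h7 : ((j : ℝ) - 2) * (2 * j ^ 2) ≥ 4 * j ^ 2 := by nlinarith [sq_nonneg (j : ℝ)]
      have h8 : ((j : ℝ) * (j - 1)) ^ 2 ≤ j ^ 2 / 2 * (M + j) := by
        have : ((j : ℝ) * (j - 1)) ^ 2 ≤ (j : ℝ) ^ 2 * (j : ℝ) ^ 2 := by
          have : ((j : ℝ) - 1) ^ 2 ≤ (j : ℝ) ^ 2 := by nlinarith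
          have h9 : (0 : ℝ) ≤ (j : ℝ) ^ 2 := sq_nonneg _
          have h10 : ((j : ℝ) * (j - 1)) ^ 2 = (j : ℝ) ^ 2 * ((j : ℝ) - 1) ^ 2 := by ring
          rw [h10]
          exact mul_le_mul_of_nonneg_left this h9
        have h10 : (0 : ℝ) ≤ j ^ 2 := sq_nonneg _
        nlinarith [mul_le_mul_of_nonneg_left hN h10]
      have h11 : ((j : ℝ) - 2) * (2 * j ^ 2) * (M + j) ≥ 4 * j ^ 2 * (M + j) :=
        mul_le_mul_of_nonneg_right h7 (by linarith)
      have h12 : (0 : ℝ) ≤ M + j := by linarith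
      have h13 : 2 * ((j : ℝ) * (j - 1) - 1) * (M + j) ≤ 2 * j ^ 2 * (M + j) := by
        apply mul_le_mul_of_nonneg_right _ h12
        nlinarith
      have h14 : (0 : ℝ) ≤ j * (j - 1) := by nlinarith
      nlinarith [mul_nonneg (sq_nonneg (j : ℝ)) h12]
  have hMM : M ^ 2 ≤ 2 * (j : ℝ) ^ 2 * M := by nlinarith
  have hj3 : (0 : ℝ) ≤ 3 * (j : ℝ) ^ 3 - 2 * j := by nlinarith [sq_nonneg (j : ℝ)]
  nlinarith


theorem choose_mono' {a b m : ℕ} (h1 : a ≤ b) (h2 : (b + 1).choose 2 ≤ m) :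
    (a + 1).choose 2 ≤ m := (Nat.choose_le_choose 2 (by omega)).trans h2

theorem large (m : ℕ) (hm : 16 ≤ m) (x : ℝ)
    (hx : IsGreatest {y : ℝ | ∃ j : ℕ, 1 ≤ j ∧ (j + 1).choose 2 ≤ m ∧ y = 2 * h m j} x) :
    ∃ J, IsGreatest {j : ℕ | 3 ≤ j ∧ (j + 1).choose 2 ≤ m ∧ Inc m j} J ∧ x = 2 * h m J := by
  have hmR : (16 : ℝ) ≤ m := by exact_mod_cast hm
  have hne : ({j : ℕ | 3 ≤ j ∧ (j + 1).choose 2 ≤ m ∧ Inc m j}).Nonempty := by
    refine ⟨3, le_rfl, ?_, ?_⟩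
    · have : (3 + 1).choose 2 = 6 := rfl
      omega
    · unfold Inc
      have : (3 : ℕ).choose 2 = 3 := rfl
      rw [this]
      push_cast
      nlinarith
  have hbd : BddAbove {j : ℕ | 3 ≤ j ∧ (j + 1).choose 2 ≤ m ∧ Inc m j} := by
    refine ⟨m, ?_⟩
    rintro j ⟨-, h2, -⟩
    have := choose_succ j
    omega
  obtain ⟨J, hJ⟩ : ∃ J, IsGreatest {j : ℕ | 3 ≤ j ∧ (j + 1).choose 2 ≤ m ∧ Inc m j} J :=
    ⟨_, Nat.sSup_mem hne hbd, fun j hj => le_csSup hbd hj⟩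
  obtain ⟨⟨hJ3, hJm, hJI⟩, hJmax⟩ := hJ
  have hInc : ∀ d i, 3 ≤ i → i + d = J → Inc m i := by
    intro d
    induction d with
    | zero => intro i _ h; rw [add_zero] at h; rw [h]; exact hJI
    | succ d ih =>
      intro i h3 h
      exact prop m i h3 (choose_mono' (by omega) hJm) (ih (i + 1) (by omega) (by omega))
  have hup : ∀ d i, 2 ≤ i → i + d = J → h m i ≤ h m J := by
    intro d
    induction d with
    | zero => intro i _ h; rw [add_zero] at h; rw [h]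
    | succ d ih =>
      intro i h2 h
      have h4 := (inc_iff m i (by omega) (choose_mono' (by omega) hJm)).1
        (hInc d (i + 1) (by omega) (by omega))
      exact h4.trans (ih (i + 1) (by omega) (by omega))
  have hdown : ∀ d, (J + d + 1).choose 2 ≤ m → h m (J + d) ≤ h m J := by
    intro d
    induction d with
    | zero => intro _; exact le_rfl
    | succ d ih =>
      intro hv
      have hv' : (J + d + 1 + 1).choose 2 ≤ m := hv
      have h4 : ¬ Inc m (J + d + 1) := by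
        intro hI
        have := hJmax ⟨by omega, hv', hI⟩
        omega
      rw [inc_iff m (J + d) (by omega) hv'] at h4
      push Not at h4
      have h5 := ih (choose_mono' (by omega) hv')
      exact (h4.le).trans h5
  have h13 : h m 1 ≤ h m 3 := by
    unfold h
    have a1 : (1 + 1 : ℕ).choose 2 = 1 := rfl
    have a2 : (1 : ℕ).choose 2 = 0 := rfl
    have a3 : (3 + 1 : ℕ).choose 2 = 6 := rfl
    have a4 : (3 : ℕ).choose 2 = 3 := rfl
    rw [a1, a2, a3, a4]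
    push_cast
    have b1 : 2 * (m : ℝ) * 3 / (m + 1 - 3) ≤ 2 * m * 1 / (m + 1 - 0) + 5 := by
      rw [div_add' _ _ _ (by linarith), div_le_div_iff₀ (by linarith) (by linarith)]
      nlinarith
    linarith
  have hall : ∀ j, 1 ≤ j → (j + 1).choose 2 ≤ m → h m j ≤ h m J := by
    intro j hj hjm
    rcases lt_trichotomy j 2 with h2 | h2 | h2
    · have : j = 1 := by omega
      rw [this]
      exact h13.trans (hup (J - 3) 3 (by omega) (by omega))
    · rw [h2]; exact hup (J - 2) 2 le_rfl (by omega)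
    · rcases le_total j J with h3 | h3
      · exact hup (J - j) j (by omega) (by omega)
      · obtain ⟨d, rfl⟩ := Nat.exists_eq_add_of_le h3
        exact hdown d hjm
  refine ⟨J, ⟨⟨hJ3, hJm, hJI⟩, hJmax⟩, ?_⟩
  obtain ⟨⟨j, hj1, hj2, rfl⟩, hub⟩ := hx
  refine le_antisymm ?_ (hub ⟨J, by omega, hJm, rfl⟩)
  have := hall j hj1 hj2
  linarith

theorem small (m : ℕ) (hm1 : 1 ≤ m) (hm : m ≤ 15) (x : ℝ)
    (hx : IsGreatest {y : ℝ | ∃ j : ℕ, 1 ≤ j ∧ (j + 1).choose 2 ≤ m ∧ y = 2 * h m j} x) :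
    x = 2 * h m 1 := by
  obtain ⟨⟨j, hj1, hj2, rfl⟩, hub⟩ := hx
  refine le_antisymm ?_ (hub ⟨1, le_rfl, by simpa using hm1, rfl⟩)
  have hj5 : j ≤ 5 := by
    by_contra hcon
    have : (6 + 1).choose 2 ≤ (j + 1).choose 2 := Nat.choose_le_choose 2 (by omega)
    have h21 : (6 + 1).choose 2 = 21 := rfl
    omega
  unfold h
  have a1 : (1 : ℕ).choose 2 = 0 := rfl
  have a2 : (2 : ℕ).choose 2 = 1 := rfl
  have a3 : (3 : ℕ).choose 2 = 3 := rfl
  have a4 : (4 : ℕ).choose 2 = 6 := rfl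
  have a5 : (5 : ℕ).choose 2 = 10 := rfl
  have a6 : (6 : ℕ).choose 2 = 15 := rfl
  interval_cases j <;> interval_cases m <;>
    simp only [Nat.reduceAdd, a1, a2, a3, a4, a5, a6] at * <;> norm_num at *

end Pool.Agent.Q260.TE.Red
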