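import Pool.Agent.Q260.TE.Stmts

set_option autoImplicit false

open Finset Matrix

namespace Pool.Agent.Q260.TE

theorem asymLow : TaskAsymLow := by
  intro m q hq hm
  obtain ⟨a, ha1, ha2⟩ : ∃ a : ℕ, q ^ 2 ≤ a ∧ (a : ℝ) < q ^ 2 + 1 :=
    ⟨⌈q ^ 2⌉₊, Nat.le_ceil _, Nat.ceil_lt_add_one (by positivity)⟩
  obtain ⟨n, hn1, hn2⟩ : ∃ n : ℕ, q ^ 3 ≤ n ∧ (n : ℝ) < q ^ 3 + 1 :=
    ⟨⌈q ^ 3⌉₊, Nat.le_ceil _, Nat.ceil_lt_add_one (by positivity)⟩
  have hq0 : 0 < q := by linarith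
  have h2 : 4 ≤ q ^ 2 := by nlinarith
  have h3 : q ^ 2 * 2 ≤ q ^ 3 := by
    have : q ^ 3 = q ^ 2 * q := by ring
    rw [this]
    exact mul_le_mul_of_nonneg_left hq (by positivity)
  have h4 : q ^ 3 * 2 ≤ q ^ 4 := by
    have : q ^ 4 = q ^ 3 * q := by ring
    rw [this]
    exact mul_le_mul_of_nonneg_left hq (by positivity)
  have hn0 : (0 : ℝ) < n := by
    have : 0 < q ^ 3 := by positivity
    linarith
  refine ⟨n, a + 1, ⟨by omega, ?_, ?_, ?_⟩, ?_⟩
  · have : ((a + 1 + 1 : ℕ) : ℝ) ≤ (n : ℝ) := by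
      push_cast
      linarith
    exact_mod_cast this
  · have : (n : ℝ) < ((m + 1 : ℕ) : ℝ) := by
      push_cast
      linarith
    have h5 : n < m + 1 := by exact_mod_cast this
    omega
  · have h5 : (m : ℝ) + 1 ≤ n + ((a + 1).choose 2 : ℕ) := by
      rw [Nat.cast_choose_two]
      push_cast
      have h6 : q ^ 2 * (q ^ 2 + 1) ≤ (a : ℝ) * (a + 1) :=
        mul_le_mul ha1 (by linarith) (by positivity) (by positivity)
      nlinarith
    exact_mod_cast h5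
  · unfold f
    push_cast
    have h5 : 2 * (m : ℝ) * (a + 1) / n ≤ q * (a + 1) := by
      rw [div_le_iff₀ hn0, ← hm]
      have h6 : q ^ 4 ≤ q * n := by
        have : q ^ 4 = q * q ^ 3 := by ring
        rw [this]
        exact mul_le_mul_of_nonneg_left hn1 hq0.le
      have h7 : (0 : ℝ) ≤ (a : ℝ) + 1 := by positivity
      nlinarith
    have h8 : (q - 1) * ((a : ℝ) + 1) ≤ (q - 1) * (q ^ 2 + 2) :=
      mul_le_mul_of_nonneg_left (by linarith) (by linarith)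
    nlinarith

theorem TaskAsymLow_proof : TaskAsymLow := asymLow

end Pool.Agent.Q260.TE
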