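import Pool.Agent.Q260.TE.Stmts

set_option autoImplicit false

open Finset

namespace Pool.Agent.Q260.TE.TaskAsymUp

open Pool.Agent.Q260.TE

theorem real_part (q x K : ℝ) (hq : 0 ≤ q) (hx : 0 < x) (hK : 0 ≤ K) (hkn : K + 1 ≤ x)
    (hxm : x ≤ q ^ 4 / 2 + 1) (h4 : q ^ 4 / 2 + 1 ≤ x + K * (K - 1) / 2) :
    q ^ 4 + 1 + K - x - q ^ 4 * K / x ≤ q ^ 4 - 2 * q ^ 3 + 5 * q ^ 2 + 5 := by
  have hdiv : 0 ≤ q ^ 4 * K / x := by positivity
  by_cases hA : 2 ≤ q ∧ K ≤ q ^ 2 - 2 * q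
  · obtain ⟨hq2, hk⟩ := hA
    have h5 : K ^ 2 ≤ (q ^ 2 - 2 * q) ^ 2 := by
      apply pow_le_pow_left₀ hK hk
    nlinarith
  · set s := √K with hs
    have hs0 : 0 ≤ s := Real.sqrt_nonneg K
    have hs2 : s ^ 2 = K := Real.sq_sqrt hK
    have hAG : 2 * q ^ 2 * s - x ≤ q ^ 4 * K / x := by
      rw [le_div_iff₀ hx, ← hs2]
      nlinarith [sq_nonneg (x - q ^ 2 * s)]
    have hsq : s ≤ q ^ 2 := by
      have h6 : s ^ 2 ≤ (q ^ 2) ^ 2 := by
        rw [hs2]
        have : 0 ≤ q ^ 4 := by positivity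
        nlinarith
      exact (sq_le_sq₀ hs0 (by positivity)).1 h6
    by_cases hq2 : 2 ≤ q
    · have hk : q ^ 2 - 2 * q < K := by
        by_contra h
        exact hA ⟨hq2, not_lt.1 h⟩
      have h7 : q - 2 ≤ s := by
        by_contra h
        push Not at h
        have : s ^ 2 < (q - 2) ^ 2 := by
          apply pow_lt_pow_left₀ h hs0
          norm_num
        nlinarith
      have h8 : 0 ≤ (s - (q - 2)) * (2 * q ^ 2 - s - (q - 2)) := by
        apply mul_nonneg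
        · linarith
        · nlinarith
      nlinarith
    · push Not at hq2
      have h9 : 0 ≤ s * (2 * q ^ 2 - s) := by
        apply mul_nonneg hs0
        nlinarith [sq_nonneg q]
      have h10 : 0 ≤ q ^ 2 * (5 - 2 * q) := by
        apply mul_nonneg (sq_nonneg q)
        linarith
      nlinarith

theorem main : Pool.Agent.Q260.TE.TaskAsymUp := by
  intro m n k q hq hm hadm
  obtain ⟨h1, h2, h3, h4⟩ := hadm
  have hn : 0 < n := by omega
  have hn' : (0 : ℝ) < n := by exact_mod_cast hn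
  have h2' : (k : ℝ) + 1 ≤ n := by exact_mod_cast h2
  have h3' : (n : ℝ) ≤ m + 1 := by exact_mod_cast h3
  have h4' : (m : ℝ) + 1 ≤ n + (k.choose 2 : ℕ) := by exact_mod_cast h4
  rw [Nat.cast_choose_two] at h4'
  unfold f
  rw [← hm]
  exact real_part q n k hq hn' (Nat.cast_nonneg k) h2' (by linarith) (by linarith)

end Pool.Agent.Q260.TE.TaskAsymUp
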