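import Mathlib
import Pool.Agent.Q260.TE.Stmts

set_option autoImplicit false

open Finset Matrix

namespace Pool.Agent.Q260.TE.TaskDeg

theorem main : Pool.Agent.Q260.TE.TaskDeg := by
  intro n G _ u W hu hdom hW
  have h := G.sum_degrees_eq_twice_card_edges
  have du : G.degree u = n - 1 := by
    have : G.neighborFinset u = univ.erase u := by
      ext v
      simp only [SimpleGraph.mem_neighborFinset, mem_erase, mem_univ, and_true]
      exact ⟨fun h => h.ne', fun h => hdom v h⟩
    rw [← SimpleGraph.card_neighborFinset_eq_degree, this, card_erase_of_mem (mem_univ _)]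
    simp
  have d1 : ∀ v, v ≠ u → v ∉ W → G.degree v = 1 := by
    intro v hv hvW
    have : G.neighborFinset v = {u} := by
      ext w
      simp only [SimpleGraph.mem_neighborFinset, mem_singleton]
      constructor
      · intro hw
        by_contra hne
        exact hvW (hW v w hw hv hne).1
      · rintro rfl
        exact (hdom v hv).symm
    rw [← SimpleGraph.card_neighborFinset_eq_degree, this, card_singleton]
  have hn : 1 ≤ n := Nat.one_le_iff_ne_zero.2 fun h0 => by subst h0; exact u.elim0
  have hsub : W ⊆ univ.erase u := fun v hv =>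
    mem_erase.2 ⟨fun h => hu (h ▸ hv), mem_univ _⟩
  have s1 : ∑ v, G.degree v = G.degree u + ∑ v ∈ univ.erase u, G.degree v :=
    (add_sum_erase _ _ (mem_univ u)).symm
  have s2 : ∑ v ∈ univ.erase u, G.degree v =
      ∑ v ∈ (univ.erase u) \ W, G.degree v + ∑ v ∈ W, G.degree v :=
    (sum_sdiff hsub).symm
  have s3 : ∑ v ∈ (univ.erase u) \ W, G.degree v = n - 1 - W.card := by
    rw [sum_congr rfl (g := fun _ => 1) fun v hv => ?_]
    · rw [sum_const, smul_eq_mul, mul_one, card_sdiff_of_subset hsub,
        card_erase_of_mem (mem_univ _)]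
      simp
    · rw [mem_sdiff, mem_erase] at hv
      exact d1 v hv.1.1 hv.2
  have hc : W.card ≤ n - 1 := by
    have := card_le_card hsub
    rwa [card_erase_of_mem (mem_univ _), card_univ, Fintype.card_fin] at this
  have key : ∑ v ∈ W, G.degree v + (n - 1) + (n - 1 - W.card) = 2 * G.edgeFinset.card := by
    rw [← h, s1, s2, s3, du]; ring
  have key' : (∑ v ∈ W, (G.degree v : ℝ)) + ((n : ℝ) - 1) + ((n : ℝ) - 1 - W.card) =
      2 * (G.edgeFinset.card : ℝ) := by
    have := congrArg (Nat.cast : ℕ → ℝ) key
    push_cast [Nat.cast_sub hc, Nat.cast_sub hn] at this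
    linarith
  linarith

end Pool.Agent.Q260.TE.TaskDeg
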