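import Pool.Agent.Q260.TE.Stmts

set_option autoImplicit false

open Finset Matrix

namespace Pool.Agent.Q260.TE.TaskDom

theorem trace_eq {n : ℕ} (G : SimpleGraph (Fin n)) [DecidableRel G.Adj]
    (Q : Matrix (Fin n) (Fin n) ℝ) (hsymm : ∀ i j, Q i j = Q j i) :
    2 * (Q * G.lapMatrix ℝ).trace =
      ∑ i, ∑ j, (if G.Adj i j then (Q i i + Q j j - 2 * Q i j) else 0) := by
  have h1 : (Q * G.lapMatrix ℝ).trace =
      ∑ i, ∑ j, (if G.Adj i j then (Q i i - Q i j) else 0) := by
    unfold Matrix.trace
    refine Finset.sum_congr rfl fun i _ => ?_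
    rw [Matrix.diag_apply, Matrix.mul_apply]
    have h2 : ∀ j, Q i j * G.lapMatrix ℝ j i =
        (if i = j then Q i i * (G.degree i : ℝ) else 0) - (if G.Adj i j then Q i j else 0) := by
      intro j
      rw [SimpleGraph.lapMatrix, Matrix.sub_apply, SimpleGraph.degMatrix, Matrix.diagonal_apply,
        SimpleGraph.adjMatrix_apply, mul_sub]
      congr 1
      · by_cases h : i = j
        · subst h; simp
        · simp [h, Ne.symm h]
      · by_cases h : G.Adj i j
        · simp [h, h.symm]
        · have h' : ¬ G.Adj j i := fun h3 => h h3.symm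
          simp [h, h']
    rw [Finset.sum_congr rfl fun j _ => h2 j, Finset.sum_sub_distrib]
    have h3 : ∑ j, (if i = j then Q i i * (G.degree i : ℝ) else 0) =
        ∑ j, (if G.Adj i j then Q i i else 0) := by
      rw [Finset.sum_ite_eq Finset.univ i, if_pos (Finset.mem_univ i), ← Finset.sum_filter,
        Finset.sum_const, nsmul_eq_mul, mul_comm]
      congr 2
      rw [← SimpleGraph.card_neighborFinset_eq_degree]
      congr 1
      ext j
      simp
    rw [h3, ← Finset.sum_sub_distrib]
    refine Finset.sum_congr rfl fun j _ => ?_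
    split_ifs <;> simp
  have h4 : (Q * G.lapMatrix ℝ).trace =
      ∑ i, ∑ j, (if G.Adj i j then (Q j j - Q j i) else 0) := by
    rw [h1, Finset.sum_comm]
    refine Finset.sum_congr rfl fun i _ => Finset.sum_congr rfl fun j _ => ?_
    simp only [G.adj_comm i j]
  rw [two_mul]
  nth_rewrite 1 [h1]
  rw [h4, ← Finset.sum_add_distrib]
  refine Finset.sum_congr rfl fun i _ => ?_
  rw [← Finset.sum_add_distrib]
  refine Finset.sum_congr rfl fun j _ => ?_
  split_ifs
  · rw [hsymm j i]; ring
  · simp

theorem main : Pool.Agent.Q260.TE.TaskDom := by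
  intro n G _ u Q hQt hQ hu
  have hsymm : ∀ i j, Q i j = Q j i := by
    intro i j
    have := congrFun (congrFun hQt j) i
    rwa [Matrix.transpose_apply] at this
  have hent : ∀ i j, ∑ k, Q k i * Q k j = Q i j := by
    intro i j
    have := congrFun (congrFun hQ i) j
    rw [Matrix.mul_apply] at this
    rw [← this]
    exact Finset.sum_congr rfl fun k _ => by rw [hsymm k i]
  have hT : ∀ i j, 0 ≤ Q i i + Q j j - 2 * Q i j := by
    intro i j
    have : Q i i + Q j j - 2 * Q i j = ∑ k, (Q k i - Q k j) ^ 2 := by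
      rw [← hent i i, ← hent j j, ← hent i j, Finset.mul_sum, ← Finset.sum_add_distrib,
        ← Finset.sum_sub_distrib]
      exact Finset.sum_congr rfl fun k _ => by ring
    rw [this]
    exact Finset.sum_nonneg fun k _ => sq_nonneg _
  have htr := trace_eq G Q hsymm
  set T : Fin n → Fin n → ℝ := fun i j => Q i i + Q j j - 2 * Q i j with hTdef
  have hrow : ∀ i, i ≠ u → T i u ≤
      ∑ j, (if G.Adj i j then (Q i i + Q j j - 2 * Q i j) else 0) := by
    intro i hi
    have h1 : T i u = (if G.Adj i u then (Q i i + Q u u - 2 * Q i u) else 0) := by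
      rw [if_pos (hu i hi).symm]
    rw [h1]
    refine Finset.single_le_sum (f := fun j => (if G.Adj i j then (Q i i + Q j j - 2 * Q i j)
      else 0)) (fun j _ => ?_) (Finset.mem_univ u)
    show 0 ≤ (if G.Adj i j then (Q i i + Q j j - 2 * Q i j) else 0)
    split_ifs
    · exact hT i j
    · exact le_rfl
  have hrowu : ∑ j ∈ univ.erase u, T u j =
      ∑ j, (if G.Adj u j then (Q u u + Q j j - 2 * Q u j) else 0) := by
    rw [← Finset.add_sum_erase univ (fun j => (if G.Adj u j then (Q u u + Q j j - 2 * Q u j)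
      else 0)) (Finset.mem_univ u)]
    simp only [SimpleGraph.irrefl, if_false, zero_add]
    refine Finset.sum_congr rfl fun j hj => ?_
    rw [if_pos (hu j (Finset.ne_of_mem_erase hj))]
  have hlow : 2 * ∑ j ∈ univ.erase u, T u j ≤ 2 * (Q * G.lapMatrix ℝ).trace := by
    rw [htr, ← Finset.add_sum_erase univ (fun i => ∑ j, (if G.Adj i j then
      (Q i i + Q j j - 2 * Q i j) else 0)) (Finset.mem_univ u), two_mul]
    refine add_le_add hrowu.le ?_
    refine Finset.sum_le_sum fun i hi => ?_
    have : T u i = T i u := by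
      simp only [hTdef]
      rw [hsymm u i]; ring
    rw [this]
    exact hrow i (Finset.ne_of_mem_erase hi)
  have hsum : ∑ j ∈ univ.erase u, T u j = n * Q u u + Q.trace - 2 * ∑ j, Q u j := by
    have h0 : T u u = 0 := by simp only [hTdef]; ring
    have h1 : ∑ j ∈ univ.erase u, T u j = ∑ j, T u j := by
      rw [← Finset.add_sum_erase univ (fun j => T u j) (Finset.mem_univ u), h0, zero_add]
    rw [h1]
    simp only [hTdef, Finset.sum_sub_distrib, Finset.sum_add_distrib, Finset.sum_const,
      Finset.card_univ, Fintype.card_fin, nsmul_eq_mul, ← Finset.mul_sum]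
    rfl
  have hcs : (∑ j, Q u j) ^ 2 ≤ n * Q u u := by
    have h1 := sq_sum_le_card_mul_sum_sq (s := (univ : Finset (Fin n))) (f := fun j => Q u j)
    rw [Finset.card_univ, Fintype.card_fin] at h1
    have h2 : ∑ j, Q u j ^ 2 = Q u u := by
      rw [← hent u u]
      exact Finset.sum_congr rfl fun k _ => by rw [hsymm u k]; ring
    rwa [h2] at h1
  nlinarith [sq_nonneg (∑ j, Q u j - 1)]

end Pool.Agent.Q260.TE.TaskDom
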