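import Pool.Agent.Q260.TE.Stmts

set_option autoImplicit false

open Finset

namespace Pool.Agent.Q260.TE.TaskEdges

theorem main : Pool.Agent.Q260.TE.TaskEdges := by
  intro n D hD
  have hcard : (D.sigma fun j => range j).card = ∑ j ∈ D, j := by
    rw [Finset.card_sigma]
    simp
  rw [← hcard]
  symm
  have hlt : ∀ a ∈ D.sigma (fun j => range j), a.2 < a.1 ∧ a.1 < n ∧ a.1 ∈ D := by
    intro a ha
    rw [Finset.mem_sigma] at ha
    exact ⟨Finset.mem_range.1 ha.2, Finset.mem_range.1 (hD ha.1), ha.1⟩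
  refine Finset.card_bij
    (fun a ha => s((⟨a.2, (hlt a ha).1.trans (hlt a ha).2.1⟩ : Fin n), ⟨a.1, (hlt a ha).2.1⟩))
    ?_ ?_ ?_
  · intro a ha
    rw [SimpleGraph.mem_edgeFinset, SimpleGraph.mem_edgeSet]
    obtain ⟨h1, h2, h3⟩ := hlt a ha
    refine ⟨?_, ?_⟩
    · intro h
      have := congrArg Fin.val h
      simp at this
      omega
    · show max a.2 a.1 ∈ D
      rw [max_eq_right h1.le]
      exact h3
  · intro a ha b hb h
    obtain ⟨h1, h2, h3⟩ := hlt a ha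
    obtain ⟨h4, h5, h6⟩ := hlt b hb
    rw [Sym2.eq_iff] at h
    obtain ⟨a1, a2⟩ := a
    obtain ⟨b1, b2⟩ := b
    simp only [Fin.mk.injEq] at h h1 h4
    rcases h with ⟨h7, h8⟩ | ⟨h7, h8⟩
    · subst h7; subst h8; rfl
    · omega
  · intro e he
    rw [SimpleGraph.mem_edgeFinset] at he
    induction e using Sym2.ind with
    | _ x y =>
      rw [SimpleGraph.mem_edgeSet] at he
      obtain ⟨hne, hmem⟩ := he
      have hne' : x.1 ≠ y.1 := fun h => hne (Fin.ext h)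
      rcases lt_or_gt_of_ne hne' with hlt' | hlt'
      · rw [max_eq_right hlt'.le] at hmem
        exact ⟨⟨y.1, x.1⟩, Finset.mem_sigma.2 ⟨hmem, Finset.mem_range.2 hlt'⟩, rfl⟩
      · rw [max_eq_left hlt'.le] at hmem
        exact ⟨⟨x.1, y.1⟩, Finset.mem_sigma.2 ⟨hmem, Finset.mem_range.2 hlt'⟩, Sym2.eq_swap⟩

end Pool.Agent.Q260.TE.TaskEdges
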