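import Pool.Agent.Q260.TE.Stmts

set_option autoImplicit false

open Finset Matrix

namespace Pool.Agent.Q260.TE.TaskForest

theorem main : Pool.Agent.Q260.TE.TaskForest := by
  intro n P hT hP r p hp
  have hsym : ∀ i j, P i j = P j i := fun i j => by
    have := congrFun (congrFun hT i) j
    rw [Matrix.transpose_apply] at this
    exact this.symm
  have hsq : ∀ q, ∑ c, P c q ^ 2 = P q q := by
    intro q
    have := congrFun (congrFun hP q) q
    rw [Matrix.mul_apply] at this
    conv_rhs => rw [← this]
    exact Finset.sum_congr rfl fun c _ => by rw [hsym q c]; ring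
  have h0 : ∀ q, 0 ≤ P q q := by
    intro q
    rw [← hsq q]
    positivity
  have key : ∀ q, ∑ c ∈ (univ.erase r).filter (fun v => p v = q), (P q q - 2 * P c q) ≤
      (((univ.erase r).filter (fun v => p v = q)).card : ℝ) + P q q := by
    intro q
    set C := (univ.erase r).filter (fun v => p v = q) with hC
    have hq : q ∉ C := by
      intro h
      rw [hC, Finset.mem_filter, Finset.mem_erase] at h
      exact hp q h.1.1 h.2
    have h1 : P q q ^ 2 + ∑ c ∈ C, P c q ^ 2 ≤ P q q := by
      calc P q q ^ 2 + ∑ c ∈ C, P c q ^ 2 = ∑ c ∈ insert q C, P c q ^ 2 :=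
            (Finset.sum_insert (f := fun c => P c q ^ 2) hq).symm
        _ ≤ ∑ c, P c q ^ 2 := Finset.sum_le_univ_sum_of_nonneg (fun _ => by positivity)
        _ = P q q := hsq q
    have hnn : 0 ≤ ∑ c ∈ C, P c q ^ 2 := by positivity
    have h2 : P q q ≤ 1 := by
      by_contra h
      push Not at h
      nlinarith
    rcases eq_or_lt_of_le h2 with h3 | h3
    · have hz : ∑ c ∈ C, P c q ^ 2 = 0 := by
        rw [h3] at h1
        linarith
      have hz2 : ∀ c ∈ C, P c q = 0 := by
        intro c hc
        have := (Finset.sum_eq_zero_iff_of_nonneg (fun i _ => by positivity)).1 hz c hc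
        exact pow_eq_zero_iff (two_ne_zero) |>.1 this
      rw [Finset.sum_congr rfl (fun c hc => by rw [hz2 c hc, h3])]
      rw [h3]
      simp
    · have hs : 0 < 1 - P q q := by linarith
      have h4 : ∀ c ∈ C, P q q - 2 * P c q ≤ 1 + P c q ^ 2 / (1 - P q q) := by
        intro c _
        rw [← sub_nonneg]
        have : 1 + P c q ^ 2 / (1 - P q q) - (P q q - 2 * P c q) =
            (1 - P q q + P c q) ^ 2 / (1 - P q q) := by
          field_simp
          ring
        rw [this]
        positivity
      calc ∑ c ∈ C, (P q q - 2 * P c q) ≤ ∑ c ∈ C, (1 + P c q ^ 2 / (1 - P q q)) :=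
            Finset.sum_le_sum h4
        _ = (C.card : ℝ) + (∑ c ∈ C, P c q ^ 2) / (1 - P q q) := by
            rw [Finset.sum_add_distrib, Finset.sum_div]
            simp
        _ ≤ (C.card : ℝ) + P q q := by
            have : (∑ c ∈ C, P c q ^ 2) / (1 - P q q) ≤ P q q := by
              rw [div_le_iff₀ hs]
              nlinarith
            linarith
  have hsplit : ∑ v ∈ univ.erase r, (P v v + P (p v) (p v) - 2 * P v (p v)) =
      ∑ v ∈ univ.erase r, P v v + ∑ q, ∑ c ∈ (univ.erase r).filter (fun v => p v = q),
        (P q q - 2 * P c q) := by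
    have h1 : ∑ q, ∑ c ∈ (univ.erase r).filter (fun v => p v = q), (P q q - 2 * P c q) =
        ∑ q, ∑ c ∈ (univ.erase r).filter (fun v => p v = q),
          (P (p c) (p c) - 2 * P c (p c)) := by
      refine Finset.sum_congr rfl fun q _ => Finset.sum_congr rfl fun c hc => ?_
      rw [(Finset.mem_filter.1 hc).2]
    rw [h1, Finset.sum_fiberwise, ← Finset.sum_add_distrib]
    exact Finset.sum_congr rfl fun v _ => by ring
  have hcard : ∑ q, (((univ.erase r).filter (fun v => p v = q)).card : ℝ) = (n : ℝ) - 1 := by
    have h1 : ∑ q, ((univ.erase r).filter (fun v => p v = q)).card = (univ.erase r).card :=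
      (Finset.card_eq_sum_card_fiberwise (fun x _ => Finset.mem_coe.2 (Finset.mem_univ _))).symm
    have h2 : (univ.erase r : Finset (Fin n)).card + 1 = n := by
      rw [Finset.card_erase_add_one (Finset.mem_univ r), Finset.card_univ, Fintype.card_fin]
    have h3 : (((univ.erase r : Finset (Fin n)).card : ℕ) : ℝ) + 1 = n := by exact_mod_cast h2
    rw [← Nat.cast_sum, h1]
    linarith
  have htr : ∑ v ∈ univ.erase r, P v v + P r r = P.trace := by
    rw [Finset.sum_erase_add _ _ (Finset.mem_univ r)]
    rfl
  rw [hsplit]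
  have hsum : ∑ q, ∑ c ∈ (univ.erase r).filter (fun v => p v = q), (P q q - 2 * P c q) ≤
      ((n : ℝ) - 1) + P.trace := by
    calc _ ≤ ∑ q, ((((univ.erase r).filter (fun v => p v = q)).card : ℝ) + P q q) :=
          Finset.sum_le_sum fun q _ => key q
      _ = ((n : ℝ) - 1) + P.trace := by
          rw [Finset.sum_add_distrib, hcard]
          rfl
  have := h0 r
  linarith

end Pool.Agent.Q260.TE.TaskForest
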