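import Pool.Agent.Q260.TE.Stmts

/-!
# MP_2d204e_co, task `TaskLapOne`
-/

set_option autoImplicit false

open Finset Matrix

namespace Pool.Agent.Q260.TE.TaskLapOne

theorem col_sum {n : ℕ} (G : SimpleGraph (Fin n)) [DecidableRel G.Adj] (i : Fin n) :
    ∑ j, G.lapMatrix ℝ j i = 0 := by
  have h := congrFun (G.lapMatrix_mulVec_const_eq_zero (R := ℝ)) i
  simp only [Matrix.mulVec, dotProduct, mul_one, Pi.zero_apply] at h
  rw [← h]
  refine Finset.sum_congr rfl fun j _ => ?_
  exact (G.isSymm_lapMatrix (R := ℝ)).apply i j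

theorem entry_diag {n : ℕ} (G : SimpleGraph (Fin n)) [DecidableRel G.Adj] (i : Fin n) :
    G.lapMatrix ℝ i i = (G.degree i : ℝ) := by
  simp [SimpleGraph.lapMatrix, SimpleGraph.degMatrix]

theorem entry_ne {n : ℕ} (G : SimpleGraph (Fin n)) [DecidableRel G.Adj] {i j : Fin n}
    (h : j ≠ i) : G.lapMatrix ℝ j i = if G.Adj j i then -1 else 0 := by
  simp only [SimpleGraph.lapMatrix, SimpleGraph.degMatrix, Matrix.sub_apply,
    Matrix.diagonal_apply_ne _ h, SimpleGraph.adjMatrix_apply, zero_sub]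
  split_ifs <;> simp

theorem part_sum {n : ℕ} (G : SimpleGraph (Fin n)) [DecidableRel G.Adj] (u : Fin n)
    (W : Finset (Fin n)) (hu : u ∉ W) (hdom : ∀ v, v ≠ u → G.Adj u v)
    (hW : ∀ v w, G.Adj v w → v ≠ u → w ≠ u → v ∈ W ∧ w ∈ W) (i : Fin n) (hi : i ∈ W) :
    ∑ j ∈ W, G.lapMatrix ℝ j i = 1 := by
  have hiu : i ≠ u := fun h => hu (h ▸ hi)
  have h1 := col_sum G i
  rw [← Finset.sum_add_sum_compl W] at h1
  have h2 : ∑ j ∈ Wᶜ, G.lapMatrix ℝ j i = -1 := by
    rw [Finset.sum_eq_single u]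
    · rw [entry_ne G hiu.symm, if_pos (hdom i hiu)]
    · intro j hj hju
      have hjW : j ∉ W := Finset.mem_compl.1 hj
      have hji : j ≠ i := fun h => hjW (h ▸ hi)
      rw [entry_ne G hji, if_neg]
      intro hadj
      exact hjW (hW j i hadj hju hiu).1
    · intro h
      exact absurd (Finset.mem_compl.2 hu) h
  linarith

theorem main : Pool.Agent.Q260.TE.TaskLapOne := by
  intro n G _ u W hne hu hdom hW
  have hcard : (W.card : ℝ) ≠ 0 := by
    have := hne.card_pos
    positivity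
  have e1 : (pOne W * G.lapMatrix ℝ).trace =
      ∑ i, ((if i ∈ W then G.lapMatrix ℝ i i else 0) -
        if i ∈ W then (1 / (W.card : ℝ)) * ∑ j ∈ W, G.lapMatrix ℝ j i else 0) := by
    unfold Matrix.trace
    refine Finset.sum_congr rfl fun i _ => ?_
    rw [Matrix.diag_apply, Matrix.mul_apply]
    unfold pOne
    by_cases hi : i ∈ W
    · simp only [hi, and_true, true_and, if_true, sub_mul, Finset.sum_sub_distrib]
      congr 1
      · simp
      · rw [Finset.mul_sum]
        simp [ite_mul, Finset.sum_ite_mem]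
    · simp [hi]
  rw [e1, Finset.sum_sub_distrib, Finset.sum_ite_mem, Finset.sum_ite_mem, Finset.univ_inter]
  rw [Finset.sum_congr rfl fun i (_ : i ∈ W) => entry_diag G i]
  congr 1
  rw [Finset.sum_congr rfl fun i (hi : i ∈ W) => by
    rw [part_sum G u W hu hdom hW i hi, mul_one]]
  rw [Finset.sum_const, nsmul_eq_mul]
  field_simp

end Pool.Agent.Q260.TE.TaskLapOne
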