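import Pool.Agent.Q260.TE.Stmts

set_option autoImplicit false

open Finset Matrix

namespace Pool.Agent.Q260.TE.TaskLapTwo

open Pool.Agent.Q260.TE

private theorem quad {n : ℕ} (G : SimpleGraph (Fin n)) [DecidableRel G.Adj] (u : Fin n)
    (hu : ∀ v, v ≠ u → G.Adj u v) :
    zv u ⬝ᵥ (G.lapMatrix ℝ *ᵥ zv u) = (n : ℝ) ^ 2 * (n - 1) := by
  have h1 := G.lapMatrix_toLinearMap₂' ℝ (zv u)
  rw [Matrix.toLinearMap₂'_apply'] at h1
  rw [h1]
  have h2 : ∀ i j : Fin n, (if G.Adj i j then (zv u i - zv u j) ^ 2 else 0 : ℝ) =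
      (if i = u then ((n : ℝ) ^ 2 - if j = u then (n : ℝ) ^ 2 else 0) else
        (if j = u then (n : ℝ) ^ 2 else 0)) := by
    intro i j
    by_cases hi : i = u
    · by_cases hj : j = u
      · subst hi hj
        simp
      · subst hi
        rw [if_pos (hu j hj)]
        simp [zv, hj]
    · by_cases hj : j = u
      · subst hj
        rw [if_pos (hu i hi).symm]
        simp [zv, hi]
        ring
      · simp [zv, hi, hj]
  simp only [h2]
  have h3 : ∀ i : Fin n, (∑ j : Fin n, (if i = u then ((n : ℝ) ^ 2 - if j = u then (n : ℝ) ^ 2 else 0)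
      else (if j = u then (n : ℝ) ^ 2 else 0))) =
        (n : ℝ) ^ 2 + if i = u then ((n : ℝ) * n ^ 2 - 2 * (n : ℝ) ^ 2) else 0 := by
    intro i
    by_cases hi : i = u
    · simp only [if_pos hi, sum_sub_distrib, sum_const, card_univ, Fintype.card_fin, nsmul_eq_mul,
        sum_ite_eq', mem_univ, if_true]
      ring
    · simp only [if_neg hi, sum_ite_eq', mem_univ, if_true, add_zero]
  simp only [h3, sum_add_distrib, sum_const, card_univ, Fintype.card_fin, nsmul_eq_mul,
        sum_ite_eq', mem_univ, if_true]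
  ring

theorem main : Pool.Agent.Q260.TE.TaskLapTwo := by
  intro n G _ u hn hu
  have hsym : (G.lapMatrix ℝ)ᵀ = G.lapMatrix ℝ := G.isSymm_lapMatrix (R := ℝ)
  have hn' : (2 : ℝ) ≤ n := by exact_mod_cast hn
  have h1 : (pTwo u * G.lapMatrix ℝ).trace =
      (zv u ⬝ᵥ (G.lapMatrix ℝ *ᵥ zv u)) / ((n : ℝ) * (n - 1)) := by
    rw [Matrix.trace]
    simp only [Matrix.diag_apply, Matrix.mul_apply, pTwo, dotProduct, Matrix.mulVec, mul_sum,
      sum_div]
    refine sum_congr rfl fun i _ => sum_congr rfl fun j _ => ?_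
    have : G.lapMatrix ℝ j i = G.lapMatrix ℝ i j := by
      rw [← Matrix.transpose_apply (G.lapMatrix ℝ), hsym]
    rw [this]
    ring
  rw [h1, quad G u hu]
  have h2 : (n : ℝ) - 1 ≠ 0 := by linarith
  have h3 : (n : ℝ) ≠ 0 := by linarith
  field_simp

end Pool.Agent.Q260.TE.TaskLapTwo
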