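import Pool.Agent.Q260.TE.Stmts

set_option autoImplicit false

namespace Pool.Agent.Q260.TE.TaskMinK

theorem main : Pool.Agent.Q260.TE.TaskMinK := by
  intro m n k ⟨h1, h2, h3, h4⟩
  classical
  have hex : ∃ k', 1 ≤ k' ∧ m + 1 ≤ n + k'.choose 2 := ⟨k, h1, h4⟩
  have hle : Nat.find hex ≤ k := Nat.find_min' hex ⟨h1, h4⟩
  obtain ⟨hk1, hk2⟩ := Nat.find_spec hex
  refine ⟨Nat.find hex, ⟨hk1, by omega, h3, hk2⟩, ?_, ?_⟩
  · by_cases h : Nat.find hex = 1
    · exact Or.inl h
    · right
      have := Nat.find_min hex (m := Nat.find hex - 1) (by omega)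
      push Not at this
      have := this (by omega)
      omega
  · unfold f
    have hn : (0 : ℝ) < n := by
      have : 0 < n := by omega
      exact_mod_cast this
    have hm : (n : ℝ) ≤ 2 * m := by
      have : n ≤ 2 * m := by omega
      exact_mod_cast this
    have hle' : ((Nat.find hex : ℕ) : ℝ) ≤ k := by exact_mod_cast hle
    have e : (1 : ℝ) ≤ 2 * m / n := by rw [le_div_iff₀ hn]; linarith
    have e1 : (2 * (m : ℝ) * k / n) = (2 * m / n) * k := by ring
    have e2 : (2 * (m : ℝ) * (Nat.find hex : ℕ) / n) = (2 * m / n) * (Nat.find hex : ℕ) := by ring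
    rw [e1, e2]
    nlinarith [mul_nonneg (sub_nonneg.2 e) (sub_nonneg.2 hle')]

end Pool.Agent.Q260.TE.TaskMinK
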