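import Pool.Agent.Q260.TE.Stmts

set_option autoImplicit false

open Finset Matrix

namespace Pool.Agent.Q260.TE

private theorem pOne_symm {n : ℕ} (W : Finset (Fin n)) (i j : Fin n) : pOne W i j = pOne W j i := by
  unfold pOne
  congr 1
  · by_cases h : i = j
    · subst h; rfl
    · rw [if_neg (fun h' => h h'.1), if_neg (fun h' => h h'.1.symm)]
  · by_cases h : i ∈ W ∧ j ∈ W
    · rw [if_pos h, if_pos h.symm]
    · rw [if_neg h, if_neg (fun h' => h h'.symm)]

private theorem pOne_zv {n : ℕ} (u : Fin n) (W : Finset (Fin n)) (hW : W.Nonempty) (hu : u ∉ W)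
    (i : Fin n) : ∑ k, pOne W i k * zv u k = 0 := by
  have hc : (W.card : ℝ) ≠ 0 := by exact_mod_cast hW.card_pos.ne'
  have hz : ∀ k ∈ W, zv u k = -1 := by
    intro k hk
    unfold zv
    rw [if_neg]
    rintro rfl
    exact hu hk
  by_cases hi : i ∈ W
  · have h1 : ∀ k, pOne W i k * zv u k =
        (if i = k then zv u k else 0) - (if k ∈ W then (1 : ℝ) / W.card * zv u k else 0) := by
      intro k
      unfold pOne
      rw [sub_mul]
      congr 1
      · by_cases h2 : i = k
        · subst h2
          rw [if_pos ⟨rfl, hi⟩, if_pos rfl, one_mul]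
        · rw [if_neg (fun h => h2 h.1), if_neg h2, zero_mul]
      · by_cases h3 : k ∈ W
        · rw [if_pos ⟨hi, h3⟩, if_pos h3]
        · rw [if_neg (fun h => h3 h.2), if_neg h3, zero_mul]
    simp only [h1, Finset.sum_sub_distrib, Finset.sum_ite_eq, Finset.mem_univ, if_true,
      Finset.sum_ite_mem, Finset.univ_inter]
    rw [Finset.sum_congr rfl (fun k hk => by rw [hz k hk]), hz i hi, Finset.sum_const,
      nsmul_eq_mul]
    field_simp
    norm_num
  · apply Finset.sum_eq_zero
    intro k _
    unfold pOne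
    rw [if_neg (fun h => hi h.2), if_neg (fun h => hi h.1)]
    simp

theorem TaskPMul_proof : TaskPMul := by
  intro n u W hW hu
  constructor
  · ext i j
    rw [Matrix.mul_apply, Matrix.zero_apply]
    have h : ∀ k, pOne W i k * pTwo u k j = (pOne W i k * zv u k) * (zv u j / (n * (n - 1))) := by
      intro k; unfold pTwo; ring
    simp only [h]
    rw [← Finset.sum_mul, pOne_zv u W hW hu i, zero_mul]
  · ext i j
    rw [Matrix.mul_apply, Matrix.zero_apply]
    have h : ∀ k, pTwo u i k * pOne W k j = (pOne W j k * zv u k) * (zv u i / (n * (n - 1))) := by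
      intro k; rw [pOne_symm W k j]; unfold pTwo; ring
    simp only [h]
    rw [← Finset.sum_mul, pOne_zv u W hW hu j, zero_mul]

namespace TaskPMul

theorem main : Pool.Agent.Q260.TE.TaskPMul := TaskPMul_proof

end TaskPMul

end Pool.Agent.Q260.TE
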