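import Pool.Agent.Q260.TE.Stmts

set_option autoImplicit false

namespace Pool.Agent.Q260.TE.TaskPOne

open Finset Matrix

lemma colsum {n : ℕ} (W : Finset (Fin n)) (hc : (W.card : ℝ) ≠ 0) (j : Fin n) :
    ∑ k ∈ W, pOne W k j = 0 := by
  unfold pOne
  rw [Finset.sum_sub_distrib]
  by_cases hj : j ∈ W
  · have h1 : ∑ k ∈ W, (if k = j ∧ k ∈ W then (1 : ℝ) else 0) = 1 := by
      rw [Finset.sum_eq_single j]
      · simp [hj]
      · intro b _ hb
        rw [if_neg (fun h => hb h.1)]
      · intro h; exact absurd hj h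
    have h2 : ∑ k ∈ W, (if k ∈ W ∧ j ∈ W then (1 : ℝ) / W.card else 0) = 1 := by
      rw [Finset.sum_congr rfl (fun k hk => if_pos ⟨hk, hj⟩)]
      rw [Finset.sum_const, nsmul_eq_mul]
      field_simp
    rw [h1, h2, sub_self]
  · have h1 : ∑ k ∈ W, (if k = j ∧ k ∈ W then (1 : ℝ) else 0) = 0 := by
      apply Finset.sum_eq_zero
      intro k _
      rw [if_neg]
      rintro ⟨rfl, h⟩
      exact hj h
    have h2 : ∑ k ∈ W, (if k ∈ W ∧ j ∈ W then (1 : ℝ) / W.card else 0) = 0 := by
      apply Finset.sum_eq_zero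
      intro k _
      rw [if_neg (fun h => hj h.2)]
    rw [h1, h2, sub_self]

theorem main : Pool.Agent.Q260.TE.TaskPOne := by
  intro n W hW
  have hc : (W.card : ℝ) ≠ 0 := by exact_mod_cast hW.card_pos.ne'
  refine ⟨?_, ?_, ?_⟩
  · ext i j
    simp only [Matrix.transpose_apply, pOne]
    congr 1
    · by_cases h : i = j
      · subst h; rfl
      · rw [if_neg (fun h' => h h'.1.symm), if_neg (fun h' => h h'.1)]
    · by_cases hi : i ∈ W <;> by_cases hj : j ∈ W <;> simp [hi, hj]
  · ext i j
    rw [Matrix.mul_apply]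
    by_cases hi : i ∈ W
    · have h1 : ∀ k, pOne W i k * pOne W k j =
          (if i = k then pOne W k j else 0) - (if k ∈ W then (1 / (W.card : ℝ)) * pOne W k j else 0) := by
        intro k
        have h2 : pOne W i k = (if i = k then 1 else 0) - (if k ∈ W then (1 : ℝ) / W.card else 0) := by
          unfold pOne
          by_cases hk : k ∈ W <;> by_cases hik : i = k <;> simp [hi, hk, hik]
          · exact absurd (hik ▸ hi) hk
        rw [h2]
        by_cases hk : k ∈ W <;> by_cases hik : i = k <;> simp [hk, hik] <;> ring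
      rw [Finset.sum_congr rfl (fun k _ => h1 k), Finset.sum_sub_distrib, Finset.sum_ite_eq,
        if_pos (Finset.mem_univ i), ← Finset.sum_filter, Finset.filter_mem_eq_inter,
        Finset.univ_inter, ← Finset.mul_sum, colsum W hc j, mul_zero, sub_zero]
    · have h0 : ∀ k, pOne W i k = 0 := by
        intro k
        unfold pOne
        rw [if_neg (fun h => hi h.2), if_neg (fun h => hi h.1), sub_self]
      rw [h0 j]
      apply Finset.sum_eq_zero
      intro k _
      rw [h0 k, zero_mul]
  · rw [Matrix.trace]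
    simp only [Matrix.diag_apply, pOne, true_and, and_self]
    rw [Finset.sum_sub_distrib, ← Finset.sum_filter, ← Finset.sum_filter,
      Finset.filter_mem_eq_inter, Finset.univ_inter, Finset.sum_const, Finset.sum_const,
      nsmul_eq_mul, nsmul_eq_mul]
    field_simp

end Pool.Agent.Q260.TE.TaskPOne
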