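import Pool.Agent.Q260.TE.Stmts

set_option autoImplicit false

namespace Pool.Agent.Q260.TE.TaskPTwo

open Finset Matrix Pool.Agent.Q260.TE

theorem sum_sq {n : ℕ} (u : Fin n) : ∑ i, zv u i * zv u i = (n : ℝ) * (n - 1) := by
  have h : ∀ i : Fin n, zv u i * zv u i = (if i = u then ((n : ℝ) - 1) ^ 2 - 1 else 0) + 1 := by
    intro i
    unfold zv
    split_ifs <;> ring
  rw [Finset.sum_congr rfl fun i _ => h i, Finset.sum_add_distrib, Finset.sum_ite_eq']
  simp
  ring

theorem main : Pool.Agent.Q260.TE.TaskPTwo := by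
  intro n u hn
  have hn' : (2 : ℝ) ≤ n := by exact_mod_cast hn
  have h0 : (n : ℝ) * (n - 1) ≠ 0 := by
    apply mul_ne_zero <;> linarith
  refine ⟨?_, ?_, ?_⟩
  · ext i j
    simp only [Matrix.transpose_apply, pTwo]
    rw [mul_comm]
  · ext i j
    rw [Matrix.mul_apply]
    have h : ∀ k : Fin n, pTwo u i k * pTwo u k j =
        (zv u k * zv u k) * (zv u i * zv u j / ((n : ℝ) * (n - 1)) ^ 2) := by
      intro k
      simp only [pTwo]
      field_simp
    rw [Finset.sum_congr rfl fun k _ => h k, ← Finset.sum_mul, sum_sq]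
    simp only [pTwo]
    field_simp
  · rw [Matrix.trace]
    have h : ∀ k : Fin n, (pTwo u).diag k = (zv u k * zv u k) / ((n : ℝ) * (n - 1)) := fun k => rfl
    rw [Finset.sum_congr rfl fun k _ => h k, ← Finset.sum_div, sum_sq, div_self h0]

end Pool.Agent.Q260.TE.TaskPTwo
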