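import Pool.Agent.Q260.TE.Stmts

set_option autoImplicit false

open Finset Matrix

namespace Pool.Agent.Q260.TE.TaskParent

theorem step {n : ℕ} (G : SimpleGraph (Fin n)) (hG : G.Connected) (r v : Fin n) (h : v ≠ r) :
    ∃ w, G.Adj v w ∧ G.dist w r < G.dist v r := by
  obtain ⟨p, hp⟩ := hG.exists_walk_length_eq_dist v r
  cases p with
  | nil => exact absurd rfl h
  | cons hadj q =>
    refine ⟨_, hadj, ?_⟩
    have h1 := SimpleGraph.dist_le q
    rw [← hp, SimpleGraph.Walk.length_cons]
    omega

theorem main : Pool.Agent.Q260.TE.TaskParent := by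
  classical
  intro n G hG
  obtain ⟨r⟩ := hG.nonempty
  choose f hf using fun v (h : v ≠ r) => step G hG r v h
  refine ⟨r, fun v => if h : v ≠ r then f v h else r, fun v hv => ?_, fun v w hv hw hvw hwv => ?_⟩
  · simp only [dif_pos hv]
    exact (hf v hv).1
  · have h1 : f v hv = w := by simpa [hv] using hvw
    have h2 : f w hw = v := by simpa [hw] using hwv
    have h3 := (hf v hv).2
    have h4 := (hf w hw).2
    rw [h1] at h3
    rw [h2] at h4
    omega

end Pool.Agent.Q260.TE.TaskParent
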