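import Pool.Agent.Q260.TE.Stmts

set_option autoImplicit false

open Finset Matrix

namespace Pool.Agent.Q260.TE.TaskSpec

theorem main : Pool.Agent.Q260.TE.TaskSpec := by
  intro n A hA t
  classical
  obtain ⟨U, hU⟩ : ∃ U : Matrix (Fin n) (Fin n) ℝ,
      U = (hA.eigenvectorUnitary : Matrix (Fin n) (Fin n) ℝ) := ⟨_, rfl⟩
  have h1 : Uᵀ * U = 1 := by
    have h := Unitary.coe_star_mul_self hA.eigenvectorUnitary
    rw [hU, ← conjTranspose_eq_transpose_of_trivial]
    exact h
  have hspec : A = U * diagonal hA.eigenvalues * Uᵀ := by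
    have h := hA.spectral_theorem
    rw [Unitary.conjStarAlgAut_apply] at h
    rw [hU, ← conjTranspose_eq_transpose_of_trivial]
    exact h
  refine ⟨U * diagonal (fun i => if i ∈ t then (1 : ℝ) else 0) * Uᵀ, ?_, ?_, ?_, ?_⟩
  · rw [transpose_mul, transpose_mul, transpose_transpose, diagonal_transpose, Matrix.mul_assoc]
  · have e : U * diagonal (fun i => if i ∈ t then (1 : ℝ) else 0) * Uᵀ *
        (U * diagonal (fun i => if i ∈ t then (1 : ℝ) else 0) * Uᵀ) =
        U * (diagonal (fun i => if i ∈ t then (1 : ℝ) else 0) * (Uᵀ * U) *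
          diagonal (fun i => if i ∈ t then (1 : ℝ) else 0)) * Uᵀ := by
      simp only [Matrix.mul_assoc]
    rw [e, h1, Matrix.mul_one, diagonal_mul_diagonal]
    congr 3
    funext i
    by_cases hi : i ∈ t <;> simp [hi]
  · rw [Matrix.trace_mul_comm, ← Matrix.mul_assoc, h1, Matrix.one_mul, trace_diagonal]
    simp
  · have e : U * diagonal (fun i => if i ∈ t then (1 : ℝ) else 0) * Uᵀ * A =
        U * (diagonal (fun i => if i ∈ t then (1 : ℝ) else 0) * (Uᵀ * U) *
          diagonal hA.eigenvalues * Uᵀ) := by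
      conv_lhs => rw [hspec]
      simp only [Matrix.mul_assoc]
    rw [e, h1, Matrix.mul_one, diagonal_mul_diagonal, Matrix.trace_mul_comm, Matrix.mul_assoc, h1,
      Matrix.mul_one, trace_diagonal]
    simp

end Pool.Agent.Q260.TE.TaskSpec
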