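import Pool.Agent.Q260.TE.Stmts

set_option autoImplicit false

namespace Pool.Agent.Q260.TE.TaskSubset

open Finset

private lemma le_choose (k : ℕ) : k ≤ k.choose 2 + 1 := by
  induction k with
  | zero => simp
  | succ k ih =>
    have h : (k + 1).choose 2 = k.choose 1 + k.choose 2 := Nat.choose_succ_succ k 1
    rw [h, Nat.choose_one_right]
    rcases Nat.eq_zero_or_pos k with rfl | hk
    · simp
    · omega

theorem main : Pool.Agent.Q260.TE.TaskSubset := by
  intro k
  induction k with
  | zero =>
    intro c hc
    refine ⟨∅, by simp, ?_⟩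
    simp at hc
    simp [hc]
  | succ k ih =>
    intro c hc
    have h : (k + 1).choose 2 = k.choose 1 + k.choose 2 := Nat.choose_succ_succ k 1
    rw [h, Nat.choose_one_right] at hc
    by_cases h1 : c ≤ k.choose 2
    · obtain ⟨D, hD, hs⟩ := ih c h1
      exact ⟨D, hD.trans (range_subset_range.2 (Nat.le_succ k)), hs⟩
    · have h2 := le_choose k
      obtain ⟨D, hD, hs⟩ := ih (c - k) (by omega)
      have hk : k ∉ D := fun hk => by simpa using hD hk
      refine ⟨insert k D, ?_, ?_⟩
      · intro j hj
        rcases mem_insert.1 hj with rfl | hj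
        · simp
        · exact range_subset_range.2 (Nat.le_succ k) (hD hj)
      · rw [sum_insert hk, hs]
        omega

end Pool.Agent.Q260.TE.TaskSubset
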