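import Pool.Agent.Q260.TE.Stmts

set_option autoImplicit false

open Finset

namespace Pool.Agent.Q260.TE.TaskThr

theorem thr_init (n : ℕ) (D : Finset ℕ) (j : ℕ) (hj : j < n) :
    Thr (gD n D) (univ.filter fun i : Fin n => i.1 < j + 1) := by
  induction j with
  | zero =>
    have h : (univ.filter fun i : Fin n => i.1 < 0 + 1) = {(⟨0, hj⟩ : Fin n)} := by
      ext i
      simp only [Finset.mem_filter, Finset.mem_univ, true_and, Finset.mem_singleton, Fin.ext_iff]
      omega
    rw [h]
    exact Thr.single _
  | succ j ih =>
    have ih' := ih (by omega)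
    have h : (univ.filter fun i : Fin n => i.1 < j + 1 + 1) =
        insert (⟨j + 1, hj⟩ : Fin n) (univ.filter fun i : Fin n => i.1 < j + 1) := by
      ext i
      simp only [Finset.mem_filter, Finset.mem_univ, true_and, Finset.mem_insert, Fin.ext_iff]
      omega
    have hn : (⟨j + 1, hj⟩ : Fin n) ∉ (univ.filter fun i : Fin n => i.1 < j + 1) := by
      simp
    rw [h]
    by_cases hD : j + 1 ∈ D
    · refine Thr.dominating _ _ ih' hn fun u hu => ?_
      simp only [Finset.mem_filter, Finset.mem_univ, true_and] at hu
      refine ⟨?_, ?_⟩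
      · intro he
        rw [← he] at hu
        simp at hu
      · change max (j + 1) u.1 ∈ D
        rw [max_eq_left (by omega)]
        exact hD
    · refine Thr.isolated _ _ ih' hn fun u hu => ?_
      simp only [Finset.mem_filter, Finset.mem_univ, true_and] at hu
      rintro ⟨_, h2⟩
      change max (j + 1) u.1 ∈ D at h2
      rw [max_eq_left (by omega)] at h2
      exact hD h2

theorem main : Pool.Agent.Q260.TE.TaskThr := by
  intro n D hn
  have h := thr_init n D (n - 1) (by omega)
  have h2 : (univ.filter fun i : Fin n => i.1 < n - 1 + 1) = univ := by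
    ext i
    simp only [Finset.mem_filter, Finset.mem_univ, true_and, iff_true]
    omega
  rw [h2] at h
  exact h

end Pool.Agent.Q260.TE.TaskThr
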