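import Pool.Agent.Q260.TE.Stmts

set_option autoImplicit false

namespace Pool.Agent.Q260.TE.TaskThrDom

open Finset

theorem aux {n : ℕ} (G : SimpleGraph (Fin n)) (hG : G.Connected) (S : Finset (Fin n))
    (h : Thr G S) (hS : S = univ) : ∃ u : Fin n, ∀ v, v ≠ u → G.Adj u v := by
  cases h with
  | single v =>
    refine ⟨v, fun w hw => ?_⟩
    have h1 : w ∈ ({v} : Finset (Fin n)) := hS ▸ mem_univ w
    exact absurd (mem_singleton.1 h1) hw
  | isolated S v _ hv hn =>
    refine ⟨v, fun w hw => ?_⟩
    exfalso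
    obtain ⟨p⟩ := hG.preconnected v w
    cases p with
    | nil => exact hw rfl
    | @cons _ x _ hadj _ =>
      have h1 : x ∈ insert v S := hS ▸ mem_univ x
      rcases mem_insert.1 h1 with h2 | h2
      · exact hadj.ne h2.symm
      · exact hn x h2 hadj
  | dominating S v _ hv hn =>
    refine ⟨v, fun w hw => ?_⟩
    have h1 : w ∈ insert v S := hS ▸ mem_univ w
    rcases mem_insert.1 h1 with h2 | h2
    · exact absurd h2 hw
    · exact hn w h2

theorem main : Pool.Agent.Q260.TE.TaskThrDom := fun _ G hG h => aux G hG univ h rfl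

end Pool.Agent.Q260.TE.TaskThrDom
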