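import Pool.Agent.Q260.TE.Stmts

set_option autoImplicit false

open Finset Matrix

namespace Pool.Agent.Q260.TE.TaskTop

theorem lapEnergy_eq {n : ℕ} (G : SimpleGraph (Fin n)) [DecidableRel G.Adj]
    (hL : (G.lapMatrix ℝ).IsHermitian) :
    lapEnergy G = ∑ i, |hL.eigenvalues i - 2 * (G.edgeFinset.card : ℝ) / (n : ℝ)| := by
  unfold lapEnergy
  rw [hL.roots_charpoly_eq_eigenvalues, Multiset.map_map]
  rfl

theorem trace_lap {n : ℕ} (G : SimpleGraph (Fin n)) [DecidableRel G.Adj] :
    (G.lapMatrix ℝ).trace = 2 * (G.edgeFinset.card : ℝ) := by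
  have h := G.sum_degrees_eq_twice_card_edges
  have h2 : ((∑ v, G.degree v : ℕ) : ℝ) = ((2 * G.edgeFinset.card : ℕ) : ℝ) := by rw [h]
  push_cast at h2
  rw [← h2, Matrix.trace]
  refine Finset.sum_congr rfl fun v _ => ?_
  simp [Matrix.diag, SimpleGraph.lapMatrix, SimpleGraph.degMatrix]

theorem main : Pool.Agent.Q260.TE.TaskTop := by
  intro n G _ hL hn hm
  classical
  obtain ⟨c, hc⟩ : ∃ c : ℝ, c = 2 * (G.edgeFinset.card : ℝ) / n := ⟨_, rfl⟩
  have hnR : (n : ℝ) ≠ 0 := by
    have : n ≠ 0 := by omega
    exact_mod_cast this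
  have hn0 : (0 : ℝ) < n := by
    have : 0 < n := by omega
    exact_mod_cast this
  have hmR : (0 : ℝ) < (G.edgeFinset.card : ℝ) := by exact_mod_cast hm
  have hc0 : 0 < c := by
    rw [hc]
    positivity
  have h2 : ∑ i, hL.eigenvalues i = c * n := by
    have h3 : (G.lapMatrix ℝ).trace = ∑ i, hL.eigenvalues i := by
      have := hL.trace_eq_sum_eigenvalues
      simpa using this
    rw [← h3, trace_lap, hc]
    field_simp
  set t : Finset (Fin n) := Finset.univ.filter fun i => c < hL.eigenvalues i with ht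
  refine ⟨t, ?_, ?_, ?_⟩
  · by_contra hcon
    have h0 : t = ∅ := Finset.card_eq_zero.1 (by omega)
    have hle : ∀ i, hL.eigenvalues i ≤ c := by
      intro i
      by_contra h
      have : i ∈ t := by
        rw [ht, Finset.mem_filter]
        exact ⟨Finset.mem_univ _, not_le.1 h⟩
      rw [h0] at this
      exact absurd this (Finset.notMem_empty _)
    have hsum : ∑ i, (c - hL.eigenvalues i) = 0 := by
      rw [Finset.sum_sub_distrib, h2, Finset.sum_const, Finset.card_univ, Fintype.card_fin,
        nsmul_eq_mul]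
      ring
    have heq : ∀ i, hL.eigenvalues i = c := by
      intro i
      have := (Finset.sum_eq_zero_iff_of_nonneg fun i _ => sub_nonneg.2 (hle i)).1 hsum i
        (Finset.mem_univ i)
      linarith
    have hdet : (G.lapMatrix ℝ).det = 0 := by
      haveI : Nonempty (Fin n) := ⟨⟨0, by omega⟩⟩
      exact SimpleGraph.det_lapMatrix_eq_zero G
    have hprod := hL.det_eq_prod_eigenvalues
    rw [hdet] at hprod
    have h5 : ∏ i : Fin n, ((hL.eigenvalues i : ℝ) : ℝ) ≠ 0 :=
      Finset.prod_ne_zero_iff.2 fun i _ => by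
        rw [heq]
        exact hc0.ne'
    exact h5 hprod.symm
  · by_contra hcon
    have h0 : t = Finset.univ := by
      refine Finset.eq_univ_of_card _ ?_
      have h3 := Finset.card_le_univ t
      rw [Fintype.card_fin] at h3 ⊢
      omega
    have hlt : ∀ i, c < hL.eigenvalues i := by
      intro i
      have : i ∈ t := by
        rw [h0]
        exact Finset.mem_univ _
      exact (Finset.mem_filter.1 this).2
    have hsum : ∑ i : Fin n, c < ∑ i, hL.eigenvalues i :=
      Finset.sum_lt_sum_of_nonempty ⟨⟨0, by omega⟩, Finset.mem_univ _⟩ fun i _ => hlt i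
    rw [h2, Finset.sum_const, Finset.card_univ, Fintype.card_fin, nsmul_eq_mul] at hsum
    linarith
  · rw [lapEnergy_eq G hL, ← hc]
    have h4 : ∀ i, |hL.eigenvalues i - c| = 2 * (if i ∈ t then hL.eigenvalues i - c else 0)
        - (hL.eigenvalues i - c) := by
      intro i
      by_cases hi : c < hL.eigenvalues i
      · have : i ∈ t := by simp [ht, hi]
        rw [if_pos this, abs_of_nonneg (by linarith)]
        ring
      · have : i ∉ t := by simp [ht, hi]
        rw [if_neg this, abs_of_nonpos (by linarith [not_lt.mp hi])]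
        ring
    rw [Finset.sum_congr rfl fun i _ => h4 i, Finset.sum_sub_distrib, ← Finset.mul_sum,
      Finset.sum_ite_mem, Finset.univ_inter, Finset.sum_sub_distrib, Finset.sum_sub_distrib, h2]
    simp only [Finset.sum_const, Finset.card_univ, Fintype.card_fin, nsmul_eq_mul]
    ring

end Pool.Agent.Q260.TE.TaskTop
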