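import Pool.Agent.Q260.TE.Stmts

set_option autoImplicit false

open Finset Matrix

namespace Pool.Agent.Q260.TE.TaskTree

lemma quad {n : ℕ} {Q : Matrix (Fin n) (Fin n) ℝ} (hT : Qᵀ = Q) (hQ : Q * Q = Q)
    (i j : Fin n) : Q i j = ∑ k, Q k i * Q k j := by
  have h := congrFun (congrFun hQ i) j
  rw [Matrix.mul_apply] at h
  rw [← h]
  apply Finset.sum_congr rfl
  intro k _
  have h2 : Q i k = Q k i := by
    have := congrFun (congrFun hT k) i
    rwa [Matrix.transpose_apply] at this
  rw [h2]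

lemma nonneg {n : ℕ} {Q : Matrix (Fin n) (Fin n) ℝ} (hT : Qᵀ = Q) (hQ : Q * Q = Q)
    (i j : Fin n) : 0 ≤ Q i i + Q j j - 2 * Q i j := by
  have h : Q i i + Q j j - 2 * Q i j = ∑ k, (Q k i - Q k j) ^ 2 := by
    rw [quad hT hQ i i, quad hT hQ j j, quad hT hQ i j, Finset.mul_sum, ← Finset.sum_add_distrib,
      ← Finset.sum_sub_distrib]
    apply Finset.sum_congr rfl
    intro k _
    ring
  rw [h]
  positivity

lemma two_trace {n : ℕ} (G : SimpleGraph (Fin n)) [DecidableRel G.Adj]
    (Q : Matrix (Fin n) (Fin n) ℝ) :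
    ∑ i, ∑ j, (if G.Adj i j then (1 : ℝ) else 0) * (Q i i + Q j j - 2 * Q i j) =
      2 * (Q * G.lapMatrix ℝ).trace := by
  have h1 : (Q * G.lapMatrix ℝ).trace =
      ∑ i, Q i i * (G.degree i : ℝ) - ∑ i, ∑ j, Q i j * (if G.Adj i j then (1 : ℝ) else 0) := by
    rw [SimpleGraph.lapMatrix, Matrix.mul_sub, Matrix.trace_sub]
    congr 1
    · rw [Matrix.trace]
      apply Finset.sum_congr rfl
      intro i _
      rw [Matrix.diag_apply, SimpleGraph.degMatrix, Matrix.mul_diagonal]
    · rw [Matrix.trace]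
      apply Finset.sum_congr rfl
      intro i _
      rw [Matrix.diag_apply, Matrix.mul_apply]
      apply Finset.sum_congr rfl
      intro j _
      rw [SimpleGraph.adjMatrix_apply]
      simp only [G.adj_comm j i]
  have hdeg : ∀ i, (G.degree i : ℝ) = ∑ j, (if G.Adj i j then (1 : ℝ) else 0) := by
    intro i
    rw [Finset.sum_boole, ← SimpleGraph.card_neighborFinset_eq_degree]
    congr 2
    ext j
    simp
  have h2 : ∑ i, ∑ j, (if G.Adj i j then (1 : ℝ) else 0) * Q i i =
      ∑ i, Q i i * (G.degree i : ℝ) := by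
    apply Finset.sum_congr rfl
    intro i _
    rw [hdeg, Finset.mul_sum]
    apply Finset.sum_congr rfl
    intro j _
    ring
  have h3 : ∑ i, ∑ j, (if G.Adj i j then (1 : ℝ) else 0) * Q j j =
      ∑ i, Q i i * (G.degree i : ℝ) := by
    rw [Finset.sum_comm]
    apply Finset.sum_congr rfl
    intro i _
    rw [hdeg, Finset.mul_sum]
    apply Finset.sum_congr rfl
    intro j _
    simp only [G.adj_comm j i]
    ring
  have h4 : ∑ i, ∑ j, (if G.Adj i j then (1 : ℝ) else 0) * (Q i i + Q j j - 2 * Q i j) =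
      ∑ i, ∑ j, (if G.Adj i j then (1 : ℝ) else 0) * Q i i +
      ∑ i, ∑ j, (if G.Adj i j then (1 : ℝ) else 0) * Q j j -
      2 * ∑ i, ∑ j, Q i j * (if G.Adj i j then (1 : ℝ) else 0) := by
    rw [Finset.mul_sum, ← Finset.sum_add_distrib, ← Finset.sum_sub_distrib]
    apply Finset.sum_congr rfl
    intro i _
    rw [Finset.mul_sum, ← Finset.sum_add_distrib, ← Finset.sum_sub_distrib]
    apply Finset.sum_congr rfl
    intro j _
    ring
  rw [h4, h2, h3, h1]
  ring

theorem main : Pool.Agent.Q260.TE.TaskTree := by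
  intro n G _ Q hT hQ r p hadj hne
  have hsym : ∀ i j, Q i j = Q j i := by
    intro i j
    have := congrFun (congrFun hT j) i
    rwa [Matrix.transpose_apply] at this
  have h1 : ∑ i, ∑ j, ((if i ≠ r ∧ p i = j then (1 : ℝ) else 0) +
      (if j ≠ r ∧ p j = i then (1 : ℝ) else 0)) * (Q i i + Q j j - 2 * Q i j) ≤
      ∑ i, ∑ j, (if G.Adj i j then (1 : ℝ) else 0) * (Q i i + Q j j - 2 * Q i j) := by
    apply Finset.sum_le_sum
    intro i _
    apply Finset.sum_le_sum
    intro j _
    apply mul_le_mul_of_nonneg_right _ (nonneg hT hQ i j)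
    by_cases ha : i ≠ r ∧ p i = j
    · by_cases hb : j ≠ r ∧ p j = i
      · exact absurd hb.2 (hne i j ha.1 hb.1 ha.2)
      · rw [if_pos ha, if_neg hb]
        have : G.Adj i j := by rw [← ha.2]; exact hadj i ha.1
        rw [if_pos this]
        norm_num
    · by_cases hb : j ≠ r ∧ p j = i
      · rw [if_neg ha, if_pos hb]
        have : G.Adj i j := by rw [← hb.2]; exact (hadj j hb.1).symm
        rw [if_pos this]
        norm_num
      · rw [if_neg ha, if_neg hb]
        split_ifs <;> norm_num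
  have h2 : ∑ i, ∑ j, (if i ≠ r ∧ p i = j then (1 : ℝ) else 0) * (Q i i + Q j j - 2 * Q i j) =
      ∑ v ∈ univ.erase r, (Q v v + Q (p v) (p v) - 2 * Q v (p v)) := by
    rw [← Finset.sum_subset (Finset.erase_subset r univ)]
    · apply Finset.sum_congr rfl
      intro i hi
      have hir : i ≠ r := Finset.ne_of_mem_erase hi
      rw [Finset.sum_eq_single (p i)]
      · rw [if_pos ⟨hir, rfl⟩, one_mul]
      · intro j _ hj
        rw [if_neg (fun h => hj h.2.symm), zero_mul]
      · intro h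
        exact absurd (Finset.mem_univ _) h
    · intro i _ hi
      have hir : i = r := by
        by_contra hh
        exact hi (Finset.mem_erase.2 ⟨hh, Finset.mem_univ _⟩)
      apply Finset.sum_eq_zero
      intro j _
      rw [if_neg (fun h => h.1 hir), zero_mul]
  have h3 : ∑ i, ∑ j, (if j ≠ r ∧ p j = i then (1 : ℝ) else 0) * (Q i i + Q j j - 2 * Q i j) =
      ∑ v ∈ univ.erase r, (Q v v + Q (p v) (p v) - 2 * Q v (p v)) := by
    rw [Finset.sum_comm, ← h2]
    apply Finset.sum_congr rfl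
    intro i _
    apply Finset.sum_congr rfl
    intro j _
    rw [hsym j i]
    ring
  have h4 : ∑ i, ∑ j, ((if i ≠ r ∧ p i = j then (1 : ℝ) else 0) +
      (if j ≠ r ∧ p j = i then (1 : ℝ) else 0)) * (Q i i + Q j j - 2 * Q i j) =
      2 * ∑ v ∈ univ.erase r, (Q v v + Q (p v) (p v) - 2 * Q v (p v)) := by
    have h5 : ∑ i, ∑ j, ((if i ≠ r ∧ p i = j then (1 : ℝ) else 0) +
        (if j ≠ r ∧ p j = i then (1 : ℝ) else 0)) * (Q i i + Q j j - 2 * Q i j) =
        ∑ i, ∑ j, (if i ≠ r ∧ p i = j then (1 : ℝ) else 0) * (Q i i + Q j j - 2 * Q i j) +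
        ∑ i, ∑ j, (if j ≠ r ∧ p j = i then (1 : ℝ) else 0) * (Q i i + Q j j - 2 * Q i j) := by
      rw [← Finset.sum_add_distrib]
      apply Finset.sum_congr rfl
      intro i _
      rw [← Finset.sum_add_distrib]
      apply Finset.sum_congr rfl
      intro j _
      ring
    rw [h5, h2, h3]
    ring
  rw [h4, two_trace] at h1
  linarith

end Pool.Agent.Q260.TE.TaskTree
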