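import Pool.Agent.Q260.TE.Stmts

set_option autoImplicit false

/-! Proof of `TaskUpConn` (helper95). -/

namespace Pool.Agent.Q260.TE.TaskUpConn

private theorem upConn_choose (k : ℕ) : ((k.choose 2 : ℕ) : ℝ) = (k : ℝ) * (k - 1) / 2 :=
  Nat.cast_choose_two ℝ k

theorem main : Pool.Agent.Q260.TE.TaskUpConn := by
  intro m n s S hs hsn hnm hS1 hS2
  have hn0 : (0 : ℝ) < n := by exact_mod_cast (by omega : 0 < n)
  have hsR : (1 : ℝ) ≤ s := by exact_mod_cast hs
  have hsnR : (s : ℝ) + 1 ≤ n := by exact_mod_cast hsn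
  have hnmR : (n : ℝ) ≤ m + 1 := by exact_mod_cast hnm
  have hm0 : (0 : ℝ) ≤ m := Nat.cast_nonneg m
  have hsq : 0 ≤ √(2 * (m : ℝ)) := Real.sqrt_nonneg _
  by_cases hA : n + s.choose 2 < m + 1
  · refine ⟨m + 1 - s.choose 2, s, ⟨hs, by omega, by omega, by omega⟩, ?_⟩
    have hc : ((m + 1 - s.choose 2 : ℕ) : ℝ) = m + 1 - (s : ℝ) * (s - 1) / 2 := by
      rw [Nat.cast_sub (by omega), upConn_choose]
      push_cast
      ring
    have hn' : (n : ℝ) ≤ ((m + 1 - s.choose 2 : ℕ) : ℝ) := by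
      exact_mod_cast (by omega : n ≤ m + 1 - s.choose 2)
    rw [f]
    have h1 : 2 * (m : ℝ) * s / ((m + 1 - s.choose 2 : ℕ) : ℝ) ≤ 2 * (m : ℝ) * s / n :=
      div_le_div_of_nonneg_left (by positivity) hn0 hn'
    have h2 : 2 * (m : ℝ) / n * s = 2 * (m : ℝ) * s / n := by ring
    rw [h2]
    generalize 2 * (m : ℝ) * s / ((m + 1 - s.choose 2 : ℕ) : ℝ) = X at h1
    rw [hc]
    nlinarith
  · have hB : m + 1 ≤ n + s.choose 2 := by omega
    have hex : ∃ k, 1 ≤ k ∧ m + 1 ≤ n + k.choose 2 := ⟨s, hs, hB⟩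
    classical
    obtain ⟨k, hk, hkmin⟩ : ∃ k, (1 ≤ k ∧ m + 1 ≤ n + k.choose 2) ∧
        ∀ k' < k, ¬ (1 ≤ k' ∧ m + 1 ≤ n + k'.choose 2) :=
      ⟨Nat.find hex, Nat.find_spec hex, fun k' hk' => Nat.find_min hex hk'⟩
    have hks : k ≤ s := by
      by_contra h
      exact hkmin s (by omega) ⟨hs, hB⟩
    have hksR : (k : ℝ) ≤ s := by exact_mod_cast hks
    have hk1R : (1 : ℝ) ≤ k := by exact_mod_cast hk.1
    refine ⟨n, k, ⟨hk.1, by omega, hnm, hk.2⟩, ?_⟩
    have hkb : (k : ℝ) ≤ √(2 * (m : ℝ)) + 2 := by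
      rcases Nat.lt_or_ge k 3 with h3 | h3
      · have : (k : ℝ) ≤ 2 := by exact_mod_cast (by omega : k ≤ 2)
        linarith
      · have h4 := hkmin (k - 1) (by omega)
        have h5 : n + (k - 1).choose 2 < m + 1 := by
          by_contra h
          exact h4 ⟨by omega, by omega⟩
        have h6 : (n : ℝ) + ((k - 1).choose 2 : ℕ) < m + 1 := by exact_mod_cast h5
        rw [upConn_choose, Nat.cast_sub hk.1] at h6
        push_cast at h6
        have h7 : ((k : ℝ) - 2) ^ 2 ≤ 2 * m := by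
          nlinarith
        have h8 := Real.le_sqrt_of_sq_le h7
        linarith
    have hfrac : 2 * ((s : ℝ) - k) - 2 * m / n * s + 2 * m * k / n ≤ 2 := by
      have e : 2 * ((s : ℝ) - k) - 2 * m / n * s + 2 * m * k / n =
          2 * (s - k) * (n - m) / n := by
        field_simp
        ring
      rw [e, div_le_iff₀ hn0]
      have h9 : (n : ℝ) - m ≤ 1 := by linarith
      have h10 : (0 : ℝ) ≤ s - k := by linarith
      nlinarith
    rw [f]
    linarith

end Pool.Agent.Q260.TE.TaskUpConn
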