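import Pool.Agent.Q260.TE.Stmts

/-!
Task T7 of the blueprint for MP_2d204e_co (arithmetic for the upper bound, graphs with a dominating
vertex).
-/

set_option autoImplicit false

namespace Pool.Agent.Q260.TE.TaskUpDom

open Pool.Agent.Q260.TE

theorem main : Pool.Agent.Q260.TE.TaskUpDom := by
  intro m n s S hs hsn hnm h1 h2
  have hn0 : (0 : ℝ) < n := by
    have : 0 < n := by omega
    exact_mod_cast this
  have hm0 : (0 : ℝ) ≤ m := Nat.cast_nonneg _
  have hs0 : (0 : ℝ) ≤ s := Nat.cast_nonneg _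
  by_cases hc : m + 1 ≤ n + s.choose 2
  · refine ⟨n, s, ⟨hs, hsn, hnm, hc⟩, ?_⟩
    unfold f
    have e : 2 * (m : ℝ) / n * s = 2 * m * s / n := by ring
    rw [e]
    linarith
  · have hc' : n + s.choose 2 < m + 1 := by omega
    obtain ⟨n', hn'⟩ : ∃ n', n' = m + 1 - s.choose 2 := ⟨_, rfl⟩
    have hn'' : n' + s.choose 2 = m + 1 := by omega
    refine ⟨n', s, ⟨hs, by omega, by omega, by omega⟩, ?_⟩
    have hch : ((s.choose 2 : ℕ) : ℝ) = (s : ℝ) * (s - 1) / 2 := Nat.cast_choose_two ℝ s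
    have h3 : (n' : ℝ) + (s : ℝ) * (s - 1) / 2 = m + 1 := by
      rw [← hch]
      exact_mod_cast hn''
    have hlt : (n : ℝ) ≤ n' := by
      have : n ≤ n' := by omega
      exact_mod_cast this
    have h4 : 2 * (m : ℝ) * s / n' ≤ 2 * m * s / n :=
      div_le_div_of_nonneg_left (by positivity) hn0 hlt
    unfold f
    have e : 2 * (m : ℝ) / n * s = 2 * m * s / n := by ring
    rw [e]
    nlinarith

end Pool.Agent.Q260.TE.TaskUpDom
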